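import Pool.Agent.Q240.SH.Mem

/-!
# Zeros of linear differential polynomials in zeta to the left of the critical line
-/

set_option autoImplicit false

namespace Q240.SH

open Complex Filter Topology Metric Set Polynomial

/-- zeros of `F` in the upper half plane are shadowed by zeros of `G` -/
def Sh (F G : ℂ → ℂ) : Prop := ∀ α ε : ℝ, 0 < ε → α ≤ 1 / 2 → ∃ C T0 : ℝ, ∀ ρ : ℂ, F ρ = 0 →
  0 ≤ ρ.re → ρ.re ≤ α - ε → T0 ≤ ρ.im → ∃ s : ℂ, G s = 0 ∧ 0 < s.re ∧ s.re < α ∧ |s.im - ρ.im| ≤ C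

theorem Sh.of_eq {F G : ℂ → ℂ} (hF : Cls F) (h : ∀ s : ℂ, 0 < s.im → F s = 0 → G s = 0) : Sh F G := by
  intro α ε hε hα
  obtain ⟨T0, hT0, hb⟩ := hF.big 1 one_pos
  refine ⟨0, T0, fun ρ h0 h1 h2 h3 => ⟨ρ, h ρ (by linarith) h0, ?_, by linarith, by simp⟩⟩
  rcases h1.lt_or_eq with h4 | h4
  · exact h4
  · exfalso
    have := (hb ρ h3 (by linarith) h4.symm.le).1
    rw [h0, norm_zero] at this
    exact absurd this (not_le.2 (Real.exp_pos _))

theorem Sh.trans {F G H : ℂ → ℂ} (h1 : Sh F G) (h2 : Sh G H) : Sh F H := by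
  intro α ε hε hα
  obtain ⟨C1, T1, h1⟩ := h1 (α - ε / 2) (ε / 2) (by positivity) (by linarith)
  obtain ⟨C2, T2, h2⟩ := h2 α (ε / 2) (by positivity) hα
  refine ⟨C1 + C2, max T1 (T2 + C1), fun ρ a0 a1 a2 a3 => ?_⟩
  obtain ⟨s, b0, b1, b2, b3⟩ := h1 ρ a0 a1 (by linarith) ((le_max_left _ _).trans a3)
  have b4 := abs_le.1 b3
  obtain ⟨v, c0, c1, c2, c3⟩ := h2 s b0 b1.le b2.le (by linarith [(le_max_right _ _).trans a3])
  refine ⟨v, c0, c1, c2, ?_⟩
  calc |v.im - ρ.im| = |(v.im - s.im) + (s.im - ρ.im)| := by congr 1; ring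
    _ ≤ |v.im - s.im| + |s.im - ρ.im| := abs_add_le _ _
    _ ≤ C1 + C2 := by linarith

/-- the operator `D - a` -/
theorem LD_step (P : ℂ[X]) (a : ℂ) (S : Finset ℝ) (c : ℝ → ℂ) {s : ℂ} (hs : 0 < s.im) :
    LD ((X - C a) * P) S (fun l => (-l - a) * c l) s = deriv (LD P S c) s - a * LD P S c s := by
  have hs1 : s ≠ 1 := by
    intro h
    rw [h, one_im] at hs
    exact lt_irrefl _ hs
  have hfun : LD P S c = fun s => LP P s + ES S c s := by funext s; exact LD_eq P S c s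
  have h1 : HasDerivAt (LD P S c) (LP (X * P) s + ES S (fun l => -l * c l) s) s := by
    rw [hfun]
    exact (LP_deriv P hs1).add (ES_deriv S c s)
  rw [h1.deriv, LD_eq, LD_eq]
  have h2 : (X - C a) * P = X * P + C (-a) * P := by rw [C_neg]; ring
  rw [h2, LP_add, LP_C_mul]
  have h3 : ES S (fun l => (-(l : ℂ) - a) * c l) s = ES S (fun l => -l * c l) s - a * ES S c s := by
    unfold ES
    rw [Finset.mul_sum, ← Finset.sum_sub_distrib]
    apply Finset.sum_congr rfl
    intro l _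
    ring
  rw [h3]
  ring

theorem sh_step (P : ℂ[X]) (hP : P ≠ 0) (a : ℂ) (S : Finset ℝ) (c : ℝ → ℂ) :
    Sh (LD P S c) (LD ((X - C a) * P) S (fun l => (-l - a) * c l)) ∧
    Sh (LD ((X - C a) * P) S (fun l => (-l - a) * c l)) (LD P S c) := by
  have hQ : (X - C a) * P ≠ 0 := mul_ne_zero (X_sub_C_ne_zero a) hP
  have hF := cls_LD P hP S c
  have hG := cls_LD _ hQ S (fun l => (-(l : ℂ) - a) * c l)
  refine ⟨fun α ε hε hα => ?_, fun α ε hε hα => ?_⟩
  · exact step_down hF hG a (fun s hs => LD_step P a S c hs) α ε hε hα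
  · exact step_up hF a (fun s hs => LD_step P a S c hs) α ε hε hα

theorem LD_empty (P : ℂ[X]) (c : ℝ → ℂ) (s : ℂ) : LD P ∅ c s = LP P s := by
  rw [LD_eq]; simp [ES]

/-- homogeneous case -/
theorem sh_poly (n : ℕ) : ∀ P : ℂ[X], P ≠ 0 → P.natDegree = n →
    Sh (LP P) riemannZeta ∧ Sh riemannZeta (LP P) := by
  have hcls : ∀ P : ℂ[X], P ≠ 0 → Cls (LP P) := by
    intro P hP
    have := cls_LD P hP ∅ (fun _ => 0)
    have hfun : LD P ∅ (fun _ => 0) = LP P := by funext s; exact LD_empty P _ s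
    rwa [hfun] at this
  have hone : LP (C 1) = riemannZeta := by
    funext s
    rw [← monomial_zero_left, LP_monomial, iteratedDeriv_zero, one_mul]
  have hcz : Cls riemannZeta := by
    rw [← hone]; exact hcls _ (by simp)
  induction n with
  | zero =>
    intro P hP hn
    obtain ⟨a, rfl⟩ := Polynomial.natDegree_eq_zero.1 hn
    have ha : a ≠ 0 := by
      rintro rfl
      exact hP C_0
    have hfun : ∀ s, LP (C a) s = a * riemannZeta s := by
      intro s
      rw [← monomial_zero_left, LP_monomial, iteratedDeriv_zero]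
    constructor
    · apply Sh.of_eq (hcls _ hP)
      intro s _ h
      rw [hfun] at h
      exact (mul_eq_zero.1 h).resolve_left ha
    · apply Sh.of_eq hcz
      intro s _ h
      rw [hfun, h, mul_zero]
  | succ n ih =>
    intro P hP hn
    obtain ⟨a, ha⟩ := IsAlgClosed.exists_root P (by
      intro h
      have := natDegree_eq_of_degree_eq_some (n := 0) h
      omega)
    obtain ⟨Q, hQ⟩ := dvd_iff_isRoot.2 ha
    have hQ0 : Q ≠ 0 := by
      rintro rfl
      rw [mul_zero] at hQ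
      exact hP hQ
    have hQn : Q.natDegree = n := by
      have := natDegree_mul (X_sub_C_ne_zero a) hQ0
      rw [← hQ, hn, natDegree_X_sub_C] at this
      omega
    obtain ⟨i1, i2⟩ := ih Q hQ0 hQn
    obtain ⟨j1, j2⟩ := sh_step Q hQ0 a ∅ (fun _ => 0)
    have e1 : LD Q ∅ (fun _ => 0) = LP Q := by funext s; exact LD_empty Q _ s
    have e2 : LD ((X - C a) * Q) ∅ (fun l => (-l - a) * (fun _ => 0) l) = LP P := by
      funext s; rw [LD_empty, hQ]
    rw [e1, e2] at j1 j2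
    exact ⟨j2.trans i1, i2.trans j1⟩

theorem sh_all (S : Finset ℝ) : ∀ (P : ℂ[X]) (c : ℝ → ℂ), P ≠ 0 →
    Sh (LD P S c) riemannZeta ∧ Sh riemannZeta (LD P S c) := by
  classical
  induction S using Finset.induction_on with
  | empty =>
    intro P c hP
    have hfun : LD P ∅ c = LP P := by funext s; exact LD_empty P c s
    rw [hfun]
    exact sh_poly P.natDegree P hP rfl
  | insert l S hl ih =>
    intro P c hP
    obtain ⟨j1, j2⟩ := sh_step P hP (-(l : ℂ)) (insert l S) c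
    have hQ : (X - C (-(l : ℂ))) * P ≠ 0 := mul_ne_zero (X_sub_C_ne_zero _) hP
    obtain ⟨i1, i2⟩ := ih ((X - C (-(l : ℂ))) * P) (fun x => (-x - -(l : ℂ)) * c x) hQ
    have e1 : LD ((X - C (-(l : ℂ))) * P) (insert l S) (fun x => (-x - -(l : ℂ)) * c x) =
        LD ((X - C (-(l : ℂ))) * P) S (fun x => (-x - -(l : ℂ)) * c x) := by
      funext s
      rw [LD_eq, LD_eq, ES, ES, Finset.sum_insert hl]
      simp
    rw [e1] at j1 j2
    exact ⟨j1.trans i1, i2.trans j2⟩

theorem sh_main (P Q : ℂ[X]) (hP : P ≠ 0) (hQ : Q ≠ 0) (S R : Finset ℝ) (c d : ℝ → ℂ) :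
    Sh (LD P S c) (LD Q R d) := (sh_all S P c hP).1.trans (sh_all R Q d hQ).2

end Q240.SH
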