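import Pool.Agent.Q240.SH.Shadow
import Pool.Agent.Q240.QS.Fin

/-!
# Both half planes, and finiteness statements
-/

set_option autoImplicit false

namespace Q240.SH

open Complex Filter Topology Metric Set Polynomial

theorem LD_conj (P : ℂ[X]) (S : Finset ℝ) (c : ℝ → ℂ) (s : ℂ) :
    LD P S c ((starRingEnd ℂ) s) =
      (starRingEnd ℂ) (LD (P.map (starRingEnd ℂ)) S (fun l => (starRingEnd ℂ) (c l)) s) := by
  have hinj : Function.Injective (starRingEnd ℂ) := (starRingEnd ℂ).injective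
  unfold LD
  rw [map_add, map_sum, map_sum, Polynomial.natDegree_map_eq_of_injective hinj]
  congr 1
  · apply Finset.sum_congr rfl
    intro i _
    rw [map_mul, Polynomial.coeff_map, Complex.conj_conj, Q240.QS.it_conj]
  · apply Finset.sum_congr rfl
    intro l _
    rw [map_mul, Complex.conj_conj, ← Complex.exp_conj]
    congr 2
    rw [map_neg, map_mul, conj_ofReal]

theorem map_ne {P : ℂ[X]} (hP : P ≠ 0) : P.map (starRingEnd ℂ) ≠ 0 := by
  rw [Ne, Polynomial.map_eq_zero_iff (starRingEnd ℂ).injective]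
  exact hP

/-- the shadow theorem -/
theorem both (P Q : ℂ[X]) (hP : P ≠ 0) (hQ : Q ≠ 0) (S R : Finset ℝ) (c d : ℝ → ℂ) (α ε : ℝ)
    (hε : 0 < ε) (hα : α ≤ 1 / 2) : ∃ C T0 : ℝ, 0 < T0 ∧ ∀ ρ : ℂ, LD P S c ρ = 0 → 0 ≤ ρ.re →
    ρ.re ≤ α - ε → T0 ≤ |ρ.im| → ∃ s : ℂ, LD Q R d s = 0 ∧ 0 < s.re ∧ s.re < α ∧ |s.im - ρ.im| ≤ C := by
  obtain ⟨C1, T1, h1⟩ := sh_main P Q hP hQ S R c d α ε hε hα
  obtain ⟨C2, T2, h2⟩ := sh_main _ _ (map_ne hP) (map_ne hQ) S R (fun l => (starRingEnd ℂ) (c l))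
    (fun l => (starRingEnd ℂ) (d l)) α ε hε hα
  refine ⟨max C1 C2, max (max T1 T2) 1, lt_of_lt_of_le one_pos (le_max_right _ _),
    fun ρ a0 a1 a2 a3 => ?_⟩
  have b1 : T1 ≤ |ρ.im| := ((le_max_left _ _).trans (le_max_left _ _)).trans a3
  have b2 : T2 ≤ |ρ.im| := ((le_max_right _ _).trans (le_max_left _ _)).trans a3
  rcases le_total 0 ρ.im with h | h
  · rw [abs_of_nonneg h] at b1
    obtain ⟨s, s0, s1, s2, s3⟩ := h1 ρ a0 a1 a2 b1
    exact ⟨s, s0, s1, s2, s3.trans (le_max_left _ _)⟩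
  · rw [abs_of_nonpos h] at b2
    obtain ⟨s, s0, s1, s2, s3⟩ := h2 ((starRingEnd ℂ) ρ) (by
      have := LD_conj P S c ((starRingEnd ℂ) ρ)
      rw [Complex.conj_conj, a0] at this
      exact (map_eq_zero (starRingEnd ℂ)).1 this.symm) (by simpa using a1) (by simpa using a2)
      (by rw [conj_im]; exact b2)
    refine ⟨(starRingEnd ℂ) s, ?_, by simpa using s1, by simpa using s2, ?_⟩
    · rw [LD_conj, s0, map_zero]
    · rw [conj_im] at s3 ⊢
      refine le_trans (le_of_eq ?_) (s3.trans (le_max_right _ _))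
      rw [← abs_neg]
      congr 1
      ring

theorem LD_an (P : ℂ[X]) (S : Finset ℝ) (c : ℝ → ℂ) {s : ℂ} (hs : s ≠ 1) : AnalyticAt ℂ (LD P S c) s := by
  have hfun : LD P S c = fun s => LP P s + ES S c s := by funext s; exact LD_eq P S c s
  rw [hfun]
  have hd : Differentiable ℂ (ES S c) := fun z => (ES_deriv S c z).differentiableAt
  exact (LP_an P hs).add (hd.analyticAt s)

/-- finitely many zeros in a compact set -/
theorem fin_compact (P : ℂ[X]) (hP : P ≠ 0) (S : Finset ℝ) (c : ℝ → ℂ) (K : Set ℂ) (hK : IsCompact K)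
    (h1 : (1 : ℂ) ∉ K) : {s : ℂ | s ∈ K ∧ LD P S c s = 0}.Finite := by
  by_contra hinf
  have hinf' : {s : ℂ | s ∈ K ∧ LD P S c s = 0}.Infinite := hinf
  obtain ⟨z, hz, hacc⟩ := hinf'.exists_accPt_of_subset_isCompact hK (fun s hs => hs.1)
  have hz1 : z ≠ 1 := by rintro rfl; exact h1 hz
  have hana : AnalyticOnNhd ℂ (LD P S c) ({1}ᶜ : Set ℂ) := fun s hs => LD_an P S c hs
  have hconn : IsPreconnected ({1}ᶜ : Set ℂ) :=
    (isConnected_compl_singleton_of_one_lt_rank (rank_real_complex ▸ Nat.one_lt_ofNat) 1).isPreconnected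
  have hfreq : ∃ᶠ s in 𝓝[≠] z, LD P S c s = 0 := by
    rw [accPt_iff_frequently_nhdsNE] at hacc
    exact hacc.mono fun s hs => hs.2
  have hzero := hana.eqOn_zero_of_preconnected_of_frequently_eq_zero hconn hz1 hfreq
  obtain ⟨T0, hT0, hne⟩ := (cls_LD P hP S c).big 1 one_pos
  have hre : (((-1 : ℝ) : ℂ) + (T0 : ℂ) * I).re = -1 := by simp
  have him : (((-1 : ℝ) : ℂ) + (T0 : ℂ) * I).im = T0 := by simp
  have h2 := (hne (((-1 : ℝ) : ℂ) + (T0 : ℂ) * I) (by rw [him]) (by rw [hre]; norm_num)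
    (by rw [hre]; norm_num)).1
  have h3 : LD P S c (((-1 : ℝ) : ℂ) + (T0 : ℂ) * I) = 0 := by
    apply hzero
    intro h
    rw [mem_singleton_iff] at h
    have := congrArg Complex.re h
    rw [hre, one_re] at this
    norm_num at this
  rw [h3, norm_zero] at h2
  exact absurd h2 (not_le.2 (Real.exp_pos _))

theorem fin_strip (P : ℂ[X]) (hP : P ≠ 0) (S : Finset ℝ) (c : ℝ → ℂ) (a b T : ℝ) (hb : b < 1)
    (h : ∀ s : ℂ, a ≤ s.re → s.re ≤ b → T ≤ |s.im| → LD P S c s ≠ 0) :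
    {s : ℂ | a ≤ s.re ∧ s.re ≤ b ∧ LD P S c s = 0}.Finite := by
  refine (fin_compact P hP S c (Icc a b ×ℂ Icc (-T) T) (isCompact_Icc.reProdIm isCompact_Icc) ?_).subset ?_
  · intro h1
    rw [mem_reProdIm] at h1
    have := h1.1.2
    rw [one_re] at this
    linarith
  · rintro s ⟨h1, h2, h3⟩
    refine ⟨?_, h3⟩
    rw [mem_reProdIm]
    have hlt : |s.im| < T := by
      by_contra hc
      push Not at hc
      exact h s h1 h2 hc h3
    have := abs_lt.1 hlt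
    exact ⟨⟨h1, h2⟩, this.1.le, this.2.le⟩

/-- finiteness passes from one function to the other -/
theorem fin_pass (P Q : ℂ[X]) (hP : P ≠ 0) (hQ : Q ≠ 0) (S R : Finset ℝ) (c d : ℝ → ℂ) (α ε : ℝ)
    (hε : 0 < ε) (hα : α ≤ 1 / 2) (hf : {s : ℂ | 0 < s.re ∧ s.re < α ∧ LD Q R d s = 0}.Finite) :
    {s : ℂ | 0 ≤ s.re ∧ s.re ≤ α - ε ∧ LD P S c s = 0}.Finite := by
  obtain ⟨C, T0, hT0, h⟩ := both P Q hP hQ S R c d α ε hε hα
  obtain ⟨B, hB⟩ := (hf.image fun s => |s.im|).bddAbove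
  refine fin_strip P hP S c 0 (α - ε) (max T0 (B + C + 1)) (by linarith) (fun s h1 h2 h3 h4 => ?_)
  obtain ⟨v, v1, v2, v3, v4⟩ := h s h4 h1 h2 ((le_max_left _ _).trans h3)
  have h5 : |v.im| ≤ B := hB ⟨v, ⟨v2, v3, v1⟩, rfl⟩
  have h6 : |s.im| ≤ |v.im| + |v.im - s.im| := by
    have : s.im = v.im - (v.im - s.im) := by ring
    calc |s.im| = |v.im - (v.im - s.im)| := by rw [← this]
      _ ≤ _ := abs_sub _ _
  have h7 := (le_max_right T0 (B + C + 1)).trans h3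
  linarith

theorem LD_one (R : Finset ℝ) (s : ℂ) : LD 1 R (fun _ => 0) s = riemannZeta s := by
  unfold LD
  simp

theorem zeta_side_one (α ε : ℝ) (hα : α ≤ 1 / 2) (hε : 0 < ε) :
    {s : ℂ | 0 ≤ s.re ∧ s.re ≤ α - ε ∧ riemannZeta s = 0}.Finite ↔
    {ρ : ℂ | 1 - α + ε ≤ ρ.re ∧ riemannZeta ρ = 0}.Finite := by
  constructor
  · intro h
    refine (h.image fun s => 1 - s).subset ?_
    rintro ρ ⟨h1, h2⟩
    obtain ⟨h3, h4⟩ := Q240.QS.refl_zero h2 (by linarith)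
    refine ⟨1 - ρ, ⟨?_, ?_, h3⟩, by ring⟩
    · rw [sub_re, one_re]; linarith
    · rw [sub_re, one_re]; linarith
  · intro h
    have h0 := Q240.QS.part1 0
    refine ((h.image fun s => 1 - s).union h0).subset ?_
    rintro s ⟨h1, h2, h3⟩
    rcases h1.lt_or_eq with h4 | h4
    · left
      obtain ⟨h5, -⟩ := Q240.QS.refl_zero h3 h4
      refine ⟨1 - s, ⟨?_, h5⟩, by ring⟩
      rw [sub_re, one_re]; linarith
    · right
      refine ⟨by linarith, h4.symm.le, ?_⟩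
      rw [iteratedDeriv_zero]; exact h3

/-- the criterion for one function -/
theorem crit (P : ℂ[X]) (hP : P ≠ 0) (S : Finset ℝ) (c : ℝ → ℂ) (α : ℝ) (hα : α ≤ 1 / 2) :
    (∀ ε : ℝ, 0 < ε → {s : ℂ | 0 ≤ s.re ∧ s.re ≤ α - ε ∧ LD P S c s = 0}.Finite) ↔
    (∀ ε : ℝ, 0 < ε → {ρ : ℂ | 1 - α + ε ≤ ρ.re ∧ riemannZeta ρ = 0}.Finite) := by
  have hone : LD (1 : ℂ[X]) ∅ (fun _ => 0) = riemannZeta := by funext s; exact LD_one ∅ s
  constructor
  · intro h ε hε
    rw [← zeta_side_one α ε hα hε]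
    have h1 := fin_pass 1 P one_ne_zero hP ∅ S (fun _ => 0) c (α - ε / 2) (ε / 2) (by positivity)
      (by linarith) ((h (ε / 2) (by positivity)).subset (fun s hs => ⟨hs.1.le, hs.2.1.le, hs.2.2⟩))
    rw [hone] at h1
    refine h1.subset ?_
    rintro s ⟨a1, a2, a3⟩
    exact ⟨a1, by linarith, a3⟩
  · intro h ε hε
    have h0 := (zeta_side_one α (ε / 2) hα (by positivity)).2 (h (ε / 2) (by positivity))
    have h1 := fin_pass P 1 hP one_ne_zero S ∅ c (fun _ => 0) (α - ε / 2) (ε / 2) (by positivity)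
      (by linarith) (by
        rw [hone]
        exact h0.subset (fun s hs => ⟨hs.1.le, hs.2.1.le, hs.2.2⟩))
    refine h1.subset ?_
    rintro s ⟨a1, a2, a3⟩
    exact ⟨a1, by linarith, a3⟩

end Q240.SH
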