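import Pool.Agent.Q240.SH.Horiz

/-!
# From a zero of `F` to a zero of `F' - a F`
-/

set_option autoImplicit false

namespace Q240.SH

open Complex Filter Topology Metric Set MeasureTheory

/-- Cauchy's theorem for a rectangle, as an inequality -/
theorem rect_le {f : ℂ → ℂ} {x0 x1 y0 y1 : ℝ} (hx : x0 ≤ x1) (hy : y0 ≤ y1)
    (hf : ∀ s : ℂ, x0 ≤ s.re → s.re ≤ x1 → y0 ≤ s.im → s.im ≤ y1 → DifferentiableAt ℂ f s)
    {B R : ℝ} (hB : ∀ x : ℝ, x0 ≤ x → x ≤ x1 → ‖f (x + y0 * I)‖ ≤ B ∧ ‖f (x + y1 * I)‖ ≤ B)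
    (hR : ∀ y : ℝ, y0 ≤ y → y ≤ y1 → ‖f (x1 + y * I)‖ ≤ R) :
    ‖∫ y : ℝ in y0..y1, f (x0 + y * I)‖ ≤ 2 * (B * (x1 - x0)) + R * (y1 - y0) := by
  have h := Complex.integral_boundary_rect_eq_zero_of_differentiableOn f ((x0 : ℂ) + y0 * I)
    ((x1 : ℂ) + y1 * I) (by
    intro s hs
    rw [mem_reProdIm] at hs
    have e1 : ((x0 : ℂ) + y0 * I).re = x0 := by simp
    have e2 : ((x1 : ℂ) + y1 * I).re = x1 := by simp
    have e3 : ((x0 : ℂ) + y0 * I).im = y0 := by simp
    have e4 : ((x1 : ℂ) + y1 * I).im = y1 := by simp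
    rw [e1, e2, e3, e4, uIcc_of_le hx, uIcc_of_le hy] at hs
    exact (hf s hs.1.1 hs.1.2 hs.2.1 hs.2.2).differentiableWithinAt)
  have e1 : ((x0 : ℂ) + y0 * I).re = x0 := by simp
  have e2 : ((x1 : ℂ) + y1 * I).re = x1 := by simp
  have e3 : ((x0 : ℂ) + y0 * I).im = y0 := by simp
  have e4 : ((x1 : ℂ) + y1 * I).im = y1 := by simp
  rw [e1, e2, e3, e4] at h
  obtain ⟨a, ha⟩ : ∃ a : ℂ, a = ∫ x : ℝ in x0..x1, f (x + y0 * I) := ⟨_, rfl⟩
  obtain ⟨b, hb⟩ : ∃ b : ℂ, b = ∫ x : ℝ in x0..x1, f (x + y1 * I) := ⟨_, rfl⟩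
  obtain ⟨c, hc⟩ : ∃ c : ℂ, c = ∫ y : ℝ in y0..y1, f (x1 + y * I) := ⟨_, rfl⟩
  obtain ⟨d, hd⟩ : ∃ d : ℂ, d = ∫ y : ℝ in y0..y1, f (x0 + y * I) := ⟨_, rfl⟩
  rw [← ha, ← hb, ← hc, ← hd, smul_eq_mul, smul_eq_mul] at h
  rw [← hd]
  have h1 : I * d = a - b + I * c := (sub_eq_zero.1 h).symm
  have h2 : ‖d‖ = ‖I * d‖ := by rw [norm_mul, norm_I, one_mul]
  rw [h2, h1]
  have h3 : ‖a - b + I * c‖ ≤ ‖a‖ + ‖b‖ + ‖c‖ := by
    refine (norm_add_le _ _).trans ?_
    rw [norm_mul, norm_I, one_mul]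
    exact add_le_add (norm_sub_le _ _) le_rfl
  have ha' : ‖a‖ ≤ B * (x1 - x0) := by
    rw [ha]
    have := intervalIntegral.norm_integral_le_of_norm_le_const (a := x0) (b := x1)
      (f := fun x : ℝ => f (x + y0 * I)) (C := B) (fun x hx' => by
        rw [uIoc_of_le hx] at hx'
        exact (hB x hx'.1.le hx'.2).1)
    rwa [abs_of_nonneg (by linarith)] at this
  have hb' : ‖b‖ ≤ B * (x1 - x0) := by
    rw [hb]
    have := intervalIntegral.norm_integral_le_of_norm_le_const (a := x0) (b := x1)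
      (f := fun x : ℝ => f (x + y1 * I)) (C := B) (fun x hx' => by
        rw [uIoc_of_le hx] at hx'
        exact (hB x hx'.1.le hx'.2).2)
    rwa [abs_of_nonneg (by linarith)] at this
  have hc' : ‖c‖ ≤ R * (y1 - y0) := by
    rw [hc]
    have := intervalIntegral.norm_integral_le_of_norm_le_const (a := y0) (b := y1)
      (f := fun y : ℝ => f (x1 + y * I)) (C := R) (fun y hy' => by
        rw [uIoc_of_le hy] at hy'
        exact hR y hy'.1.le hy'.2)
    rwa [abs_of_nonneg (by linarith)] at this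
  linarith

/-- lower bound for a Gaussian integral -/
theorem gauss_lower {c X T : ℝ} (hc1 : 1 ≤ c) (hX : 1 ≤ X) :
    1 / (3 * c) ≤ ∫ y : ℝ in (T - X)..(T + X), Real.exp (-(c * (y - T) ^ 2)) := by
  have hc : 0 < c := by linarith
  have hci : 1 / c ≤ 1 := by rw [div_le_one hc]; exact hc1
  have hci0 : 0 < 1 / c := by positivity
  have hcont : Continuous fun y : ℝ => Real.exp (-(c * (y - T) ^ 2)) := by fun_prop
  have h1 : ∫ y : ℝ in T..(T + 1 / c), Real.exp (-(c * (y - T) ^ 2)) ≤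
      ∫ y : ℝ in (T - X)..(T + X), Real.exp (-(c * (y - T) ^ 2)) := by
    apply intervalIntegral.integral_mono_interval (by linarith) (by linarith) (by linarith)
    · exact Filter.Eventually.of_forall fun y => (Real.exp_pos _).le
    · exact hcont.intervalIntegrable _ _
  refine le_trans ?_ h1
  have h2 : ∫ y : ℝ in T..(T + 1 / c), (1 / 3 : ℝ) ≤
      ∫ y : ℝ in T..(T + 1 / c), Real.exp (-(c * (y - T) ^ 2)) := by
    apply intervalIntegral.integral_mono_on (by linarith)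
    · exact continuous_const.intervalIntegrable _ _
    · exact hcont.intervalIntegrable _ _
    · intro y hy
      have h3 : (y - T) ^ 2 ≤ (1 / c) ^ 2 := by
        apply pow_le_pow_left₀
        · linarith [hy.1]
        · linarith [hy.2]
      have h4 : c * (y - T) ^ 2 ≤ 1 := by
        calc c * (y - T) ^ 2 ≤ c * (1 / c) ^ 2 := by gcongr
          _ = 1 / c := by field_simp
          _ ≤ 1 := hci
      have h5 : Real.exp (-1) ≤ Real.exp (-(c * (y - T) ^ 2)) := Real.exp_le_exp.2 (by linarith)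
      refine le_trans ?_ h5
      rw [Real.exp_neg, one_div]
      apply inv_anti₀ (Real.exp_pos _)
      linarith [Real.exp_one_lt_d9]
  rw [intervalIntegral.integral_const, smul_eq_mul] at h2
  refine le_trans (le_of_eq ?_) h2
  field_simp
  ring

theorem log_near' {T y X : ℝ} (hX : 0 ≤ X) (hT : 2 * X + 1 ≤ T) (hy : |y - T| ≤ X) :
    |Real.log y - Real.log T| ≤ 1 := by
  have hy' := abs_le.1 hy
  have hy0 : 0 < y := by linarith
  have hT0 : 0 < T := by linarith
  rw [← Real.log_div hy0.ne' hT0.ne']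
  have h8 : y / T ≤ 2 := by
    rw [div_le_iff₀ hT0]; linarith
  have h9 : 1 / 2 ≤ y / T := by
    rw [le_div_iff₀ hT0]; linarith
  have h10 : 0 < y / T := by positivity
  rw [abs_le]
  constructor
  · have h11 := Real.one_sub_inv_le_log_of_pos h10
    have h12 : (y / T)⁻¹ ≤ 2 := by
      rw [inv_le_comm₀ h10 (by norm_num)]
      linarith
    linarith
  · have h11 := Real.log_le_sub_one_of_pos h10
    linarith

/-- an almost constant function against a Gaussian -/
theorem gauss_const {V : ℝ → ℂ} {c X T : ℝ} {v : ℂ} (hc1 : 1 ≤ c) (hX : 1 ≤ X)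
    (hV : ContinuousOn V (Icc (T - X) (T + X)))
    (hv : ∀ y ∈ Icc (T - X) (T + X), ‖V y - v‖ ≤ ‖v‖ / 4) :
    ‖v‖ / (4 * c) ≤ ‖∫ y : ℝ in (T - X)..(T + X), V y * ((Real.exp (-(c * (y - T) ^ 2)) : ℝ) : ℂ)‖ := by
  have hle : T - X ≤ T + X := by linarith
  obtain ⟨w, hw⟩ : ∃ w : ℝ → ℝ, w = fun y : ℝ => Real.exp (-(c * (y - T) ^ 2)) := ⟨_, rfl⟩
  have hwc : Continuous w := by rw [hw]; fun_prop
  have hw0 : ∀ y, 0 ≤ w y := fun y => by rw [hw]; exact (Real.exp_pos _).le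
  have hJ := gauss_lower (T := T) hc1 hX
  obtain ⟨J, hJd⟩ : ∃ J : ℝ, J = ∫ y : ℝ in (T - X)..(T + X), w y := ⟨_, rfl⟩
  have hJ' : 1 / (3 * c) ≤ J := by rw [hJd, hw]; exact hJ
  have hwc' : Continuous fun y => ((w y : ℝ) : ℂ) := continuous_ofReal.comp hwc
  have hVw : IntervalIntegrable (fun y => (V y - v) * ((w y : ℝ) : ℂ)) volume (T - X) (T + X) := by
    apply ContinuousOn.intervalIntegrable
    rw [uIcc_of_le hle]
    exact (hV.sub continuousOn_const).mul hwc'.continuousOn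
  have hvw : IntervalIntegrable (fun y => v * ((w y : ℝ) : ℂ)) volume (T - X) (T + X) :=
    (continuous_const.mul hwc').intervalIntegrable _ _
  have hsplit : ∫ y : ℝ in (T - X)..(T + X), V y * ((w y : ℝ) : ℂ) =
      (∫ y : ℝ in (T - X)..(T + X), (V y - v) * ((w y : ℝ) : ℂ)) + v * J := by
    have h1 : v * (J : ℂ) = ∫ y : ℝ in (T - X)..(T + X), v * ((w y : ℝ) : ℂ) := by
      rw [intervalIntegral.integral_const_mul, hJd, intervalIntegral.integral_ofReal]
    rw [h1, ← intervalIntegral.integral_add hVw hvw]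
    congr 1
    funext y
    ring
  have hsmall : ‖∫ y : ℝ in (T - X)..(T + X), (V y - v) * ((w y : ℝ) : ℂ)‖ ≤ ‖v‖ / 4 * J := by
    rw [hJd, ← intervalIntegral.integral_const_mul]
    apply intervalIntegral.norm_integral_le_of_norm_le hle
    · filter_upwards with y hy
      rw [norm_mul, norm_real, Real.norm_of_nonneg (hw0 y)]
      exact mul_le_mul_of_nonneg_right (hv y ⟨hy.1.le, hy.2⟩) (hw0 y)
    · exact (continuous_const.mul hwc).intervalIntegrable _ _
  have hJ0 : 0 < J := lt_of_lt_of_le (by positivity) hJ'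
  have hgoal : ‖v‖ * J ≤ ‖∫ y : ℝ in (T - X)..(T + X), V y * ((w y : ℝ) : ℂ)‖ + ‖v‖ / 4 * J := by
    have h1 : ‖v * (J : ℂ)‖ = ‖v‖ * J := by rw [norm_mul, norm_real, Real.norm_of_nonneg hJ0.le]
    rw [← h1]
    have h2 : v * (J : ℂ) = (∫ y : ℝ in (T - X)..(T + X), V y * ((w y : ℝ) : ℂ)) -
        ∫ y : ℝ in (T - X)..(T + X), (V y - v) * ((w y : ℝ) : ℂ) := by
      rw [hsplit]; ring
    calc ‖v * (J : ℂ)‖ = ‖(∫ y : ℝ in (T - X)..(T + X), V y * ((w y : ℝ) : ℂ)) -
          ∫ y : ℝ in (T - X)..(T + X), (V y - v) * ((w y : ℝ) : ℂ)‖ := by rw [← h2]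
      _ ≤ _ := (norm_sub_le _ _).trans (add_le_add le_rfl hsmall)
  have hfin : ‖v‖ / (4 * c) ≤ 3 / 4 * ‖v‖ * J := by
    calc ‖v‖ / (4 * c) = 3 / 4 * ‖v‖ * (1 / (3 * c)) := by field_simp
      _ ≤ 3 / 4 * ‖v‖ * J := by gcongr
  have hfun : (fun y : ℝ => V y * ((Real.exp (-(c * (y - T) ^ 2)) : ℝ) : ℂ)) =
      fun y => V y * ((w y : ℝ) : ℂ) := by rw [hw]
  rw [hfun]
  linarith

theorem step_down {F G : ℂ → ℂ} (hF : Cls F) (hG : Cls G) (a : ℂ)
    (hFG : ∀ s : ℂ, 0 < s.im → G s = deriv F s - a * F s) (α ε : ℝ) (hε : 0 < ε) (hα : α ≤ 1 / 2) :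
    ∃ C T0 : ℝ, ∀ ρ : ℂ, F ρ = 0 → 0 ≤ ρ.re → ρ.re ≤ α - ε → T0 ≤ ρ.im →
      ∃ s : ℂ, G s = 0 ∧ 0 < s.re ∧ s.re < α ∧ |s.im - ρ.im| ≤ C := by
  rcases lt_or_ge α ε with h | h
  · exact ⟨0, 0, fun ρ _ h1 h2 _ => absurd h1 (by linarith)⟩
  obtain ⟨κ, hκ⟩ : ∃ κ : ℝ, κ = ε / 32 := ⟨_, rfl⟩
  have hκ0 : 0 < κ := by rw [hκ]; positivity
  have hκ1 : κ ≤ 1 / 64 := by rw [hκ]; linarith
  obtain ⟨A, T1, hA, hT1, hgr⟩ := hF.grow
  obtain ⟨C2, T2, hC2, hrt⟩ := hF.right
  obtain ⟨T3, hT3, hld⟩ := logder hG α (ε / 2) κ (by positivity) (by linarith) hα hκ0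
  obtain ⟨X, hX⟩ : ∃ X : ℝ, X = (2 * A + 5) / κ + 1 := ⟨_, rfl⟩
  have hX1 : 1 ≤ X := by rw [hX]; linarith [show 0 < (2 * A + 5) / κ by positivity]
  have hκX : 2 * A + 5 ≤ κ * X := by
    rw [hX, mul_add, mul_div_cancel₀ _ hκ0.ne']
    linarith
  obtain ⟨N, hN⟩ : ∃ N : ℝ, N = ‖a‖ := ⟨_, rfl⟩
  have hN0 : 0 ≤ N := by rw [hN]; exact norm_nonneg _
  obtain ⟨C3, hC3⟩ : ∃ C3 : ℝ, C3 = (4 + 2 * X * C2) * Real.exp (N * (2 + X)) := ⟨_, rfl⟩
  have hC30 : 0 < C3 := by rw [hC3]; positivity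
  obtain ⟨T4, hT4, hx1⟩ := Q240.QS.ev_exp (X * Real.exp (N * X + 1) * (8 * Real.exp N))
    (show 0 < 7 / 16 * ε by positivity) 1
  obtain ⟨T5, hT5, hx2⟩ := Q240.QS.ev_exp (8 * κ * C3 * Real.exp N + 1)
    (show 0 < 27 / 32 * ε by positivity) 2
  obtain ⟨T6, hT6⟩ : ∃ T6 : ℝ, ∀ t : ℝ, T6 ≤ t → N / κ + 8 / ε + 1 / κ + 4 ≤ Real.log t :=
    Filter.eventually_atTop.1 (Real.tendsto_log_atTop.eventually_ge_atTop _)
  refine ⟨X + 4, max (max (max (T1 + X) (T2 + X)) (max (T3 + X) T4)) (max (max T5 T6) (2 * X + 10)), ?_⟩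
  intro ρ hρ0 hρ1 hρ2 hρ3
  by_contra hcon
  push Not at hcon
  obtain ⟨T, hT⟩ : ∃ T : ℝ, T = ρ.im := ⟨_, rfl⟩
  rw [← hT] at hρ3 hcon
  have ha1 : T1 + X ≤ T := (((le_max_left _ _).trans (le_max_left _ _)).trans (le_max_left _ _)).trans hρ3
  have ha2 : T2 + X ≤ T := (((le_max_right _ _).trans (le_max_left _ _)).trans (le_max_left _ _)).trans hρ3
  have ha3 : T3 + X ≤ T := (((le_max_left _ _).trans (le_max_right _ _)).trans (le_max_left _ _)).trans hρ3
  have ha4 : T4 ≤ T := (((le_max_right _ _).trans (le_max_right _ _)).trans (le_max_left _ _)).trans hρ3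
  have ha5 : T5 ≤ T := (((le_max_left _ _).trans (le_max_left _ _)).trans (le_max_right _ _)).trans hρ3
  have ha6 : T6 ≤ T := (((le_max_right _ _).trans (le_max_left _ _)).trans (le_max_right _ _)).trans hρ3
  have ha7 : 2 * X + 10 ≤ T := ((le_max_right _ _).trans (le_max_right _ _)).trans hρ3
  have hx1 := hx1 T ha4
  have hx2 := hx2 T ha5
  have hLb := hT6 T ha6
  obtain ⟨L, hL⟩ : ∃ L : ℝ, L = Real.log T := ⟨_, rfl⟩
  rw [← hL] at hx1 hx2 hLb
  rw [pow_one] at hx1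
  have p1 : 0 ≤ N / κ := by positivity
  have p2 : 0 < 8 / ε := by positivity
  have p3 : 0 < 1 / κ := by positivity
  have hL4 : 4 ≤ L := by linarith
  have hL0 : 0 < L := by linarith
  have hNL : N ≤ κ * L := by
    have : N / κ ≤ L := by linarith
    rwa [div_le_iff₀ hκ0, mul_comm] at this
  have hεL : 8 ≤ L * ε := by
    have : 8 / ε ≤ L := by linarith
    rwa [div_le_iff₀ hε] at this
  have hκL : 1 ≤ κ * L := by
    have : 1 / κ ≤ L := by linarith
    rwa [div_le_iff₀ hκ0, mul_comm] at this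
  obtain ⟨σ, hσ⟩ : ∃ σ : ℝ, σ = α - ε / 2 := ⟨_, rfl⟩
  obtain ⟨β, hβ⟩ : ∃ β : ℝ, β = ρ.re := ⟨_, rfl⟩
  rw [← hβ] at hρ1 hρ2
  have hρ : ρ = (β : ℂ) + (T : ℂ) * I := by rw [hβ, hT]; exact (re_add_im ρ).symm
  -- information on `G`
  have hinfo : ∀ x y : ℝ, 0 ≤ x → x ≤ σ → |y - T| ≤ X → G (x + y * I) ≠ 0 ∧
      ‖logDeriv G (x + y * I) + Real.log y‖ ≤ κ * Real.log y ∧
      Real.exp (Real.log y * (1 / 2 - x - κ)) ≤ ‖G (x + y * I)‖ ∧
      ‖G (x + y * I)‖ ≤ Real.exp (Real.log y * (1 / 2 - x + κ)) := by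
    intro x y h1 h2 h3
    have h3' := abs_le.1 h3
    have hre : ((x : ℂ) + y * I).re = x := by simp
    have him : ((x : ℂ) + y * I).im = y := by simp
    have h4 := hld y (by linarith) (fun s s1 s2 s3 s4 => by
      have h5 := hcon s s4 s1 s2
      have h6 := abs_le.1 s3
      have h7 : |s.im - T| ≤ X + 4 := by rw [abs_le]; constructor <;> linarith
      linarith) ((x : ℂ) + y * I) him (by rw [hre]; exact h1) (by rw [hre]; linarith)
    rwa [hre] at h4
  -- analyticity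
  have hFan : ∀ x y : ℝ, 0 < y → HasDerivAt F (G (x + y * I) + a * F (x + y * I)) (x + y * I) := by
    intro x y hy
    have him : 0 < ((x : ℂ) + y * I).im := by simpa using hy
    have h1 := (hF.an _ him).differentiableAt.hasDerivAt
    rw [hFG _ him]
    refine h1.congr_deriv ?_
    ring
  have hT0 : 0 < T := by linarith
  -- the horizontal segment
  have hhor := horiz (F := F) (G := G) (a := a) (T := T) (L := L) (η := κ) (β := β) (σ := σ) hL0 hκ0
    (by linarith) (by rw [← hN]; exact hNL) (by linarith) (by linarith) (by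
      have : ε / 2 ≤ σ - β := by linarith
      calc (4 : ℝ) ≤ L * (ε / 2) := by linarith
        _ ≤ L * (σ - β) := by gcongr) (fun x _ _ => hFan x T hT0) (by
      intro x h1 h2
      obtain ⟨g1, g2, -, -⟩ := hinfo x T (by linarith) h2 (by simp; linarith)
      have him : 0 < ((x : ℂ) + T * I).im := by simpa using hT0
      rw [← hL] at g2
      exact ⟨(hG.an _ him).differentiableAt.hasDerivAt, g1, g2⟩) (by rw [← hρ]; exact hρ0)
  rw [← hN] at hhor
  obtain ⟨v, hv⟩ : ∃ v : ℂ, v = F (σ + T * I) := ⟨_, rfl⟩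
  rw [← hv] at hhor
  obtain ⟨Q, hQ⟩ : ∃ Q : ℝ, Q = 1 / 2 - α := ⟨_, rfl⟩
  have hQ0 : 0 ≤ Q := by linarith
  have hvlow : Real.exp (L * (Q + ε - κ)) ≤ 2 * L * Real.exp N * ‖v‖ := by
    obtain ⟨-, -, g3, -⟩ := hinfo β T (by linarith) (by linarith) (by simp; linarith)
    rw [← hL] at g3
    have h1 : Real.exp (L * (Q + ε - κ)) ≤ ‖G (β + T * I)‖ := by
      refine le_trans ?_ g3
      apply Real.exp_le_exp.2
      gcongr
      linarith
    rw [div_le_iff₀ (by positivity)] at hhor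
    have h2 : ‖G (β + T * I)‖ = Real.exp N * (Real.exp (-N) * ‖G (β + T * I)‖) := by
      rw [← mul_assoc, ← Real.exp_add, add_neg_cancel, Real.exp_zero, one_mul]
    rw [h2] at h1
    calc Real.exp (L * (Q + ε - κ)) ≤ Real.exp N * (Real.exp (-N) * ‖G (β + T * I)‖) := h1
      _ ≤ Real.exp N * (‖v‖ * (2 * L)) := by gcongr
      _ = _ := by ring
  -- the vertical segment
  obtain ⟨V, hV⟩ : ∃ V : ℝ → ℂ, V = fun y : ℝ => cexp (-a * (((y : ℂ) - T) * I)) * F (σ + y * I) := ⟨_, rfl⟩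
  have hVT : V T = v := by rw [hV, hv]; simp
  have hlogy : ∀ y ∈ Icc (T - X) (T + X), |Real.log y - L| ≤ 1 := by
    intro y hy
    rw [hL]
    exact log_near' (X := X) (by linarith) (by linarith) (by
      rw [abs_le]; constructor <;> linarith [hy.1, hy.2])
  have hVd : ∀ y ∈ Icc (T - X) (T + X), HasDerivAt V
      (cexp (-a * (((y : ℂ) - T) * I)) * (I * G (σ + y * I))) y := by
    intro y hy
    have hy0 : 0 < y := by linarith [hy.1]
    have h1 : HasDerivAt (fun z : ℂ => cexp (-a * ((z - T) * I))) (cexp (-a * (((y : ℂ) - T) * I)) * (-a * I))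
        (y : ℂ) := by
      have h2 := ((((hasDerivAt_id (y : ℂ)).sub_const (T : ℂ)).mul_const I).const_mul (-a)).cexp
      rw [one_mul] at h2
      exact h2
    have h3 : HasDerivAt (fun z : ℂ => F (σ + z * I)) ((G (σ + y * I) + a * F (σ + y * I)) * I) (y : ℂ) := by
      have h4 : HasDerivAt (fun z : ℂ => (σ : ℂ) + z * I) I (y : ℂ) := by
        have h5 := ((hasDerivAt_id (y : ℂ)).mul_const I).const_add (σ : ℂ)
        rw [one_mul] at h5
        exact h5
      exact HasDerivAt.comp (y : ℂ) (h₂ := F) (h := fun z : ℂ => (σ : ℂ) + z * I) (hFan σ y hy0) h4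
    have h6 := (h1.mul h3).comp_ofReal
    rw [hV]
    refine h6.congr_deriv ?_
    ring
  have hVb : ∀ y ∈ Icc (T - X) (T + X), ‖cexp (-a * (((y : ℂ) - T) * I)) * (I * G (σ + y * I))‖ ≤
      Real.exp (N * X + 1) * Real.exp (L * (Q + ε / 2 + κ)) := by
    intro y hy
    have hyT : |y - T| ≤ X := by rw [abs_le]; constructor <;> linarith [hy.1, hy.2]
    obtain ⟨-, -, -, g4⟩ := hinfo σ y (by linarith) le_rfl hyT
    have h1 := abs_le.1 (hlogy y hy)
    rw [norm_mul, norm_mul, norm_I, one_mul]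
    have h2 : ‖cexp (-a * (((y : ℂ) - T) * I))‖ ≤ Real.exp (N * X) := by
      rw [Complex.norm_exp]
      apply Real.exp_le_exp.2
      refine (re_le_norm _).trans ?_
      rw [norm_mul, norm_neg, norm_mul, norm_I, mul_one, ← ofReal_sub, norm_real, Real.norm_eq_abs, ← hN]
      gcongr
    have h3 : ‖G (σ + y * I)‖ ≤ Real.exp 1 * Real.exp (L * (Q + ε / 2 + κ)) := by
      refine g4.trans ?_
      rw [← Real.exp_add]
      apply Real.exp_le_exp.2
      have h4 : 1 / 2 - σ + κ = Q + ε / 2 + κ := by rw [hσ, hQ]; ring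
      rw [h4]
      have h5 : Q + ε / 2 + κ ≤ 1 := by linarith
      have h6 : 0 ≤ Q + ε / 2 + κ := by positivity
      calc Real.log y * (Q + ε / 2 + κ) ≤ (L + 1) * (Q + ε / 2 + κ) := by gcongr; linarith
        _ ≤ _ := by linarith
    calc _ ≤ Real.exp (N * X) * (Real.exp 1 * Real.exp (L * (Q + ε / 2 + κ))) := by gcongr
      _ = _ := by rw [Real.exp_add]; ring
  have hTm : T ∈ Icc (T - X) (T + X) := ⟨by linarith, by linarith⟩
  have hclose : ∀ y ∈ Icc (T - X) (T + X), ‖V y - v‖ ≤ ‖v‖ / 4 := by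
    intro y hy
    have h1 := Convex.norm_image_sub_le_of_norm_hasDerivWithin_le
      (fun x hx => (hVd x hx).hasDerivWithinAt) hVb (convex_Icc (T - X) (T + X)) hTm hy
    rw [hVT] at h1
    have hyT : ‖y - T‖ ≤ X := by
      rw [Real.norm_eq_abs, abs_le]; constructor <;> linarith [hy.1, hy.2]
    have h2 : ‖V y - v‖ ≤ Real.exp (N * X + 1) * Real.exp (L * (Q + ε / 2 + κ)) * X := by
      refine h1.trans ?_
      gcongr
    refine h2.trans ?_
    have h3 : (8 * L * Real.exp N) * (Real.exp (N * X + 1) * Real.exp (L * (Q + ε / 2 + κ)) * X) ≤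
        (8 * L * Real.exp N) * (‖v‖ / 4) := by
      calc (8 * L * Real.exp N) * (Real.exp (N * X + 1) * Real.exp (L * (Q + ε / 2 + κ)) * X) =
          (X * Real.exp (N * X + 1) * (8 * Real.exp N) * L) * Real.exp (L * (Q + ε / 2 + κ)) := by ring
        _ ≤ Real.exp (7 / 16 * ε * L) * Real.exp (L * (Q + ε / 2 + κ)) := by gcongr
        _ = Real.exp (L * (Q + ε - κ)) := by
            rw [← Real.exp_add]; congr 1; rw [hκ]; ring
        _ ≤ 2 * L * Real.exp N * ‖v‖ := hvlow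
        _ = _ := by ring
    exact le_of_mul_le_mul_left h3 (by positivity)
  have hVc : ContinuousOn V (Icc (T - X) (T + X)) := fun y hy => (hVd y hy).continuousAt.continuousWithinAt
  have hgc := gauss_const hκL hX1 hVc hclose
  -- the rectangle
  obtain ⟨f, hf⟩ : ∃ f : ℂ → ℂ, f = fun s : ℂ => cexp (-a * (s - (σ + T * I))) * F s *
      cexp (((κ * L : ℝ) : ℂ) * (s - (σ + T * I)) ^ 2) := ⟨_, rfl⟩
  have hsq : ∀ x y : ℝ, ‖cexp (((κ * L : ℝ) : ℂ) * (((x : ℂ) + y * I) - (σ + T * I)) ^ 2)‖ =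
      Real.exp (κ * L * ((x - σ) ^ 2 - (y - T) ^ 2)) := by
    intro x y
    rw [Complex.norm_exp]
    congr 1
    have h1 : (((x : ℂ) + y * I) - (σ + T * I)) ^ 2 =
        (((x - σ) ^ 2 - (y - T) ^ 2 : ℝ) : ℂ) + ((2 * (x - σ) * (y - T) : ℝ) : ℂ) * I := by
      push_cast
      linear_combination ((y : ℂ) - T) ^ 2 * I_sq
    rw [h1, Complex.re_ofReal_mul, add_re, ofReal_re, re_ofReal_mul, I_re, mul_zero, add_zero]
  have hexpn : ∀ x y : ℝ, |x - σ| ≤ 2 → |y - T| ≤ X →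
      ‖cexp (-a * (((x : ℂ) + y * I) - (σ + T * I)))‖ ≤ Real.exp (N * (2 + X)) := by
    intro x y h1 h2
    rw [Complex.norm_exp]
    apply Real.exp_le_exp.2
    refine (re_le_norm _).trans ?_
    rw [norm_mul, norm_neg, ← hN]
    gcongr
    have h3 : ((x : ℂ) + y * I) - (σ + T * I) = ((x - σ : ℝ) : ℂ) + ((y - T : ℝ) : ℂ) * I := by
      push_cast; ring
    rw [h3]
    refine (norm_add_le _ _).trans ?_
    rw [norm_mul, norm_I, mul_one, norm_real, norm_real, Real.norm_eq_abs, Real.norm_eq_abs]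
    exact add_le_add h1 h2
  have hrect := rect_le (f := f) (x0 := σ) (x1 := 2) (y0 := T - X) (y1 := T + X) (by linarith) (by linarith)
    (by
      intro s h1 h2 h3 h4
      have him : 0 < s.im := by linarith
      have hd := (hF.an s him).differentiableAt
      rw [hf]
      fun_prop) (B := Real.exp (N * (2 + X))) (R := Real.exp (N * (2 + X)) * C2 * Real.exp (κ * L * 4)) (by
      intro x h1 h2
      have hxσ : |x - σ| ≤ 2 := by rw [abs_le]; constructor <;> linarith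
      have hgen : ∀ y : ℝ, |y - T| = X → y ∈ Icc (T - X) (T + X) → ‖f (x + y * I)‖ ≤ Real.exp (N * (2 + X)) := by
        intro y hy hy'
        have hre : ((x : ℂ) + y * I).re = x := by simp
        have him : ((x : ℂ) + y * I).im = y := by simp
        rw [hf, norm_mul, norm_mul, hsq]
        have h5 := hexpn x y hxσ hy.le
        have h6 := hgr ((x : ℂ) + y * I) (by rw [him]; linarith [hy'.1]) (by rw [hre]; linarith)
          (by rw [hre]; linarith)
        rw [him] at h6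
        have h7 := abs_le.1 (hlogy y hy')
        have h8 : (y - T) ^ 2 = X ^ 2 := by rw [← sq_abs, hy]
        have h9 : ‖F (x + y * I)‖ * Real.exp (κ * L * ((x - σ) ^ 2 - (y - T) ^ 2)) ≤ 1 := by
          calc _ ≤ Real.exp (A * Real.log y) * Real.exp (κ * L * ((x - σ) ^ 2 - (y - T) ^ 2)) := by gcongr
            _ = Real.exp (A * Real.log y + κ * L * ((x - σ) ^ 2 - (y - T) ^ 2)) := by rw [Real.exp_add]
            _ ≤ 1 := by
                rw [Real.exp_le_one_iff, h8]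
                have q1 : A * Real.log y ≤ A * (2 * L) := by gcongr; linarith
                have q2 : (x - σ) ^ 2 ≤ 4 := by
                  have : |x - σ| ^ 2 ≤ 2 ^ 2 := pow_le_pow_left₀ (abs_nonneg _) hxσ 2
                  rw [sq_abs] at this
                  linarith
                have q3 : X ≤ X ^ 2 := by
                  have := mul_le_mul_of_nonneg_left hX1 (show (0 : ℝ) ≤ X by linarith)
                  rw [mul_one] at this
                  rw [sq]; exact this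
                have q4 : κ * L * ((x - σ) ^ 2 - X ^ 2) ≤ κ * L * (4 - X) := by
                  gcongr
                have q5 : (2 * A + 5) * L ≤ κ * X * L := by gcongr
                have q6 : κ * L ≤ 1 / 64 * L := by gcongr
                have q7 : κ * L * (4 - X) = 4 * (κ * L) - κ * X * L := by ring
                linarith
        calc ‖cexp (-a * (((x : ℂ) + y * I) - (σ + T * I)))‖ * ‖F (x + y * I)‖ *
            Real.exp (κ * L * ((x - σ) ^ 2 - (y - T) ^ 2)) =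
            ‖cexp (-a * (((x : ℂ) + y * I) - (σ + T * I)))‖ * (‖F (x + y * I)‖ *
            Real.exp (κ * L * ((x - σ) ^ 2 - (y - T) ^ 2))) := by ring
          _ ≤ Real.exp (N * (2 + X)) * 1 := by gcongr
          _ = _ := mul_one _
      constructor
      · have := hgen (T - X) (by rw [sub_sub_cancel_left, abs_neg, abs_of_pos (by linarith)])
          ⟨le_rfl, by linarith⟩
        exact_mod_cast this
      · have := hgen (T + X) (by rw [add_sub_cancel_left, abs_of_pos (by linarith)])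
          ⟨by linarith, le_rfl⟩
        exact_mod_cast this) (by
      intro y h1 h2
      have hyT : |y - T| ≤ X := by rw [abs_le]; constructor <;> linarith
      have hre : (((2 : ℝ) : ℂ) + y * I).re = 2 := by simp
      have him : (((2 : ℝ) : ℂ) + y * I).im = y := by simp
      rw [hf, norm_mul, norm_mul, hsq]
      have h5 := hexpn 2 y (by rw [abs_le]; constructor <;> linarith) hyT
      have h6 := hrt (((2 : ℝ) : ℂ) + y * I) hre (by rw [him]; linarith)
      have q2 : (2 - σ) ^ 2 ≤ 4 := by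
        have : (2 - σ) ^ 2 ≤ 2 ^ 2 := pow_le_pow_left₀ (by linarith) (by linarith) 2
        linarith
      have q3 : (2 - σ) ^ 2 - (y - T) ^ 2 ≤ 4 := by linarith [sq_nonneg (y - T)]
      gcongr)
  have hleft : ∀ y : ℝ, f (σ + y * I) = V y * ((Real.exp (-(κ * L * (y - T) ^ 2)) : ℝ) : ℂ) := by
    intro y
    rw [hf, hV]
    have h1 : ((σ : ℂ) + y * I) - (σ + T * I) = ((y : ℂ) - T) * I := by ring
    simp only [h1]
    rw [Complex.ofReal_exp]
    congr 2
    push_cast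
    linear_combination (κ * L * ((y : ℂ) - T) ^ 2) * I_sq
  have hint : (∫ y : ℝ in (T - X)..(T + X), f (σ + y * I)) =
      ∫ y : ℝ in (T - X)..(T + X), V y * ((Real.exp (-(κ * L * (y - T) ^ 2)) : ℝ) : ℂ) := by
    congr 1
    funext y
    exact hleft y
  have hrect' : ‖∫ y : ℝ in (T - X)..(T + X), f (σ + y * I)‖ ≤
      2 * (Real.exp (N * (2 + X)) * (2 - σ)) + Real.exp (N * (2 + X)) * C2 * Real.exp (κ * L * 4) *
      (T + X - (T - X)) := by
    exact_mod_cast hrect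
  rw [hint] at hrect'
  have hfin : ‖v‖ / (4 * (κ * L)) ≤ C3 * Real.exp (κ * L * 4) := by
    refine hgc.trans (hrect'.trans ?_)
    have e1 : 1 ≤ Real.exp (κ * L * 4) := Real.one_le_exp (by positivity)
    rw [hC3]
    have e2 : Real.exp (N * (2 + X)) * (2 - σ) ≤ Real.exp (N * (2 + X)) * 2 := by gcongr; linarith
    have e3 : Real.exp (N * (2 + X)) * 4 * 1 ≤ Real.exp (N * (2 + X)) * 4 * Real.exp (κ * L * 4) := by gcongr
    linarith
  have hfin2 : Real.exp (L * (Q + ε - κ)) ≤ (8 * κ * C3 * Real.exp N) * L ^ 2 * Real.exp (κ * L * 4) := by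
    rw [div_le_iff₀ (by positivity)] at hfin
    calc Real.exp (L * (Q + ε - κ)) ≤ 2 * L * Real.exp N * ‖v‖ := hvlow
      _ ≤ 2 * L * Real.exp N * (C3 * Real.exp (κ * L * 4) * (4 * (κ * L))) := by gcongr
      _ = _ := by ring
  have hfin3 : Real.exp (27 / 32 * ε * L) ≤ (8 * κ * C3 * Real.exp N) * L ^ 2 := by
    have h1 : Real.exp (27 / 32 * ε * L) * Real.exp (κ * L * 4) ≤
        (8 * κ * C3 * Real.exp N) * L ^ 2 * Real.exp (κ * L * 4) := by
      refine le_trans ?_ hfin2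
      rw [← Real.exp_add]
      apply Real.exp_le_exp.2
      have h2 : 0 ≤ L * Q := by positivity
      rw [hκ]
      linarith
    exact le_of_mul_le_mul_right h1 (Real.exp_pos _)
  have hL2 : 0 < L ^ 2 := by positivity
  linarith

end Q240.SH
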