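import Pool.Agent.Q240.SH.Log

/-!
# Integration along a horizontal segment
-/

set_option autoImplicit false

namespace Q240.SH

open Complex Filter Topology Metric Set

theorem horiz {F G : ℂ → ℂ} {a : ℂ} {T L η β σ : ℝ} (hL : 0 < L) (hη0 : 0 < η) (hη : η ≤ 1 / 16)
    (ha : ‖a‖ ≤ η * L) (hβ : β ≤ σ) (hβ1 : σ - β ≤ 1) (hLσ : 4 ≤ L * (σ - β))
    (hF : ∀ x : ℝ, β ≤ x → x ≤ σ → HasDerivAt F (G (x + T * I) + a * F (x + T * I)) (x + T * I))
    (hG : ∀ x : ℝ, β ≤ x → x ≤ σ → HasDerivAt G (deriv G (x + T * I)) (x + T * I) ∧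
      G (x + T * I) ≠ 0 ∧ ‖logDeriv G (x + T * I) + L‖ ≤ η * L)
    (hF0 : F (β + T * I) = 0) :
    Real.exp (-‖a‖) * ‖G (β + T * I)‖ / (2 * L) ≤ ‖F (σ + T * I)‖ := by
  obtain ⟨e, he⟩ : ∃ e : ℝ → ℂ, e = fun x : ℝ => cexp (-a * ((x : ℂ) - σ)) := ⟨_, rfl⟩
  have hed : ∀ x : ℝ, HasDerivAt e (e x * (-a)) x := by
    intro x
    have h1 : HasDerivAt (fun z : ℂ => cexp (-a * (z - σ))) (cexp (-a * ((x : ℂ) - σ)) * (-a)) (x : ℂ) := by
      have h2 := (((hasDerivAt_id (x : ℂ)).sub_const (σ : ℂ)).const_mul (-a)).cexp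
      rw [mul_one] at h2
      exact h2
    rw [he]
    exact h1.comp_ofReal
  have hline : ∀ (H : ℂ → ℂ) (d : ℂ) (x : ℝ), HasDerivAt H d (x + T * I) →
      HasDerivAt (fun x : ℝ => H (x + T * I)) d x := by
    intro H d x hH
    have h2 : HasDerivAt (fun z : ℂ => H (z + T * I)) d (x : ℂ) := by
      have h3 : HasDerivAt (fun z : ℂ => z + T * I) 1 (x : ℂ) := (hasDerivAt_id _).add_const _
      have h5 := HasDerivAt.comp (x : ℂ) (h₂ := H) (h := fun z : ℂ => z + T * I) hH h3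
      rw [mul_one] at h5
      exact h5
    exact h2.comp_ofReal
  obtain ⟨F1, hF1⟩ : ∃ F1 : ℝ → ℂ, F1 = fun x : ℝ => e x * F (x + T * I) := ⟨_, rfl⟩
  obtain ⟨G1, hG1⟩ : ∃ G1 : ℝ → ℂ, G1 = fun x : ℝ => e x * G (x + T * I) := ⟨_, rfl⟩
  have hF1d : ∀ x : ℝ, β ≤ x → x ≤ σ → HasDerivAt F1 (G1 x) x := by
    intro x h1 h2
    have h3 := (hed x).mul (hline F _ x (hF x h1 h2))
    rw [hF1, hG1]
    refine h3.congr_deriv ?_
    ring
  have hG1d : ∀ x : ℝ, β ≤ x → x ≤ σ → HasDerivAt G1 (G1 x * (logDeriv G (x + T * I) - a)) x := by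
    intro x h1 h2
    obtain ⟨g1, g2, -⟩ := hG x h1 h2
    have h3 := (hed x).mul (hline G _ x g1)
    rw [hG1]
    refine h3.congr_deriv ?_
    rw [logDeriv_apply]
    field_simp
    ring
  have hld : ∀ x : ℝ, β ≤ x → x ≤ σ → ‖(logDeriv G (x + T * I) - a) + L‖ ≤ 2 * η * L := by
    intro x h1 h2
    obtain ⟨-, -, g3⟩ := hG x h1 h2
    calc ‖(logDeriv G (x + T * I) - a) + L‖ = ‖(logDeriv G (x + T * I) + L) - a‖ := by congr 1; ring
      _ ≤ ‖logDeriv G (x + T * I) + L‖ + ‖a‖ := norm_sub_le _ _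
      _ ≤ η * L + η * L := add_le_add g3 ha
      _ = _ := by ring
  -- decay of `G1`
  obtain ⟨b, hb⟩ : ∃ b : ℝ, b = L / 2 := ⟨_, rfl⟩
  have hdec : ∀ x : ℝ, β ≤ x → x ≤ σ → ‖G1 x‖ ≤ ‖G1 β‖ * Real.exp (-(b * (x - β))) := by
    obtain ⟨q, hq⟩ : ∃ q : ℝ → ℂ, q = fun x : ℝ => ((Real.exp (b * (x - β)) : ℝ) : ℂ) * G1 x := ⟨_, rfl⟩
    have hqd : ∀ x : ℝ, β ≤ x → x ≤ σ → HasDerivAt q (q x * (logDeriv G (x + T * I) - a + b)) x := by
      intro x h1 h2
      have h3 : HasDerivAt (fun x : ℝ => ((Real.exp (b * (x - β)) : ℝ) : ℂ))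
          ((Real.exp (b * (x - β)) * b : ℝ) : ℂ) x := by
        have h4 : HasDerivAt (fun x : ℝ => Real.exp (b * (x - β))) (Real.exp (b * (x - β)) * b) x := by
          have h5 := (((hasDerivAt_id x).sub_const β).const_mul b).exp
          rw [mul_one] at h5
          exact h5
        exact h4.ofReal_comp
      have h6 := h3.mul (hG1d x h1 h2)
      rw [hq]
      refine h6.congr_deriv ?_
      push_cast
      ring
    have hanti : AntitoneOn (fun x : ℝ => ‖q x‖ ^ 2) (Icc β σ) := by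
      have hsq : ∀ x : ℝ, β ≤ x → x ≤ σ → HasDerivAt (fun x : ℝ => ‖q x‖ ^ 2)
          (2 * (‖q x‖ ^ 2 * (logDeriv G (x + T * I) - a + b).re)) x := by
        intro x h1 h2
        have h3 := (hqd x h1 h2).norm_sq
        refine h3.congr_deriv ?_
        rw [Complex.inner]
        have h4 : q x * (logDeriv G (↑x + ↑T * I) - a + ↑b) * (starRingEnd ℂ) (q x) =
            ((‖q x‖ ^ 2 : ℝ) : ℂ) * (logDeriv G (↑x + ↑T * I) - a + ↑b) := by
          rw [← Complex.normSq_eq_norm_sq, ← Complex.mul_conj]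
          ring
        rw [h4, Complex.re_ofReal_mul]
      apply antitoneOn_of_deriv_nonpos (convex_Icc _ _)
      · intro x hx
        exact (hsq x hx.1 hx.2).continuousAt.continuousWithinAt
      · intro x hx
        rw [interior_Icc] at hx
        exact (hsq x hx.1.le hx.2.le).differentiableAt.differentiableWithinAt
      · intro x hx
        rw [interior_Icc] at hx
        rw [(hsq x hx.1.le hx.2.le).deriv]
        have h5 : (logDeriv G (x + T * I) - a + b).re ≤ 0 := by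
          have h6 := (Complex.re_le_norm _).trans (hld x hx.1.le hx.2.le)
          rw [add_re, ofReal_re] at h6 ⊢
          rw [hb]
          nlinarith
        have h7 : 0 ≤ ‖q x‖ ^ 2 := by positivity
        nlinarith [mul_nonneg h7 (neg_nonneg.2 h5)]
    intro x h1 h2
    have h3 := hanti ⟨le_rfl, hβ⟩ ⟨h1, h2⟩ h1
    have h4 : ‖q x‖ ≤ ‖q β‖ := le_of_sq_le_sq h3 (norm_nonneg _)
    have h5 : ‖q x‖ = Real.exp (b * (x - β)) * ‖G1 x‖ := by
      rw [hq, norm_mul, norm_real, Real.norm_of_nonneg (Real.exp_pos _).le]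
    have h6 : ‖q β‖ = ‖G1 β‖ := by
      rw [hq, norm_mul, norm_real, Real.norm_of_nonneg (Real.exp_pos _).le, sub_self, mul_zero,
        Real.exp_zero, one_mul]
    rw [h5, h6] at h4
    rw [Real.exp_neg, ← div_eq_mul_inv, le_div_iff₀ (Real.exp_pos _), mul_comm]
    exact h4
  -- the function `M`
  obtain ⟨M, hM⟩ : ∃ M : ℝ → ℂ, M = fun x => F1 x + G1 x / L := ⟨_, rfl⟩
  have hLc : (L : ℂ) ≠ 0 := by exact_mod_cast hL.ne'
  have hMd : ∀ x : ℝ, β ≤ x → x ≤ σ →
      HasDerivAt M (G1 x * ((logDeriv G (x + T * I) - a) + L) / L) x := by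
    intro x h1 h2
    have h3 := (hF1d x h1 h2).add ((hG1d x h1 h2).div_const (L : ℂ))
    rw [hM]
    refine h3.congr_deriv ?_
    field_simp
    ring
  have hMb : ∀ x : ℝ, β ≤ x → x ≤ σ → ‖G1 x * ((logDeriv G (x + T * I) - a) + L) / L‖ ≤
      2 * η * ‖G1 β‖ * Real.exp (-(b * (x - β))) := by
    intro x h1 h2
    rw [norm_div, norm_mul, norm_real, Real.norm_of_nonneg hL.le, div_le_iff₀ hL]
    calc ‖G1 x‖ * ‖(logDeriv G (x + T * I) - a) + L‖ ≤
        (‖G1 β‖ * Real.exp (-(b * (x - β)))) * (2 * η * L) := by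
          gcongr
          · exact hdec x h1 h2
          · exact hld x h1 h2
      _ = _ := by ring
  have hMσ : ‖M σ - M β‖ ≤ 4 * η * ‖G1 β‖ / L := by
    have hb0 : 0 < b := by rw [hb]; positivity
    have h1 := image_norm_le_of_norm_deriv_right_le_deriv_boundary'
      (f := fun x => M x - M β) (a := β) (b := σ)
      (f' := fun x => G1 x * ((logDeriv G (x + T * I) - a) + L) / L)
      (B := fun x => 2 * η * ‖G1 β‖ / b * (1 - Real.exp (-(b * (x - β)))))
      (B' := fun x => 2 * η * ‖G1 β‖ * Real.exp (-(b * (x - β))))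
      (fun x hx => ((hMd x hx.1 hx.2).sub_const _).continuousAt.continuousWithinAt)
      (fun x hx => ((hMd x hx.1 hx.2.le).sub_const _).hasDerivWithinAt)
      (by simp)
      (by fun_prop)
      (fun x hx => by
        have h2 : HasDerivAt (fun x : ℝ => Real.exp (-(b * (x - β)))) (Real.exp (-(b * (x - β))) * (-b)) x := by
          have h3 := (((hasDerivAt_id x).sub_const β).const_mul b).neg.exp
          rw [mul_one] at h3
          exact h3
        have h4 := (h2.const_sub 1).const_mul (2 * η * ‖G1 β‖ / b)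
        refine (h4.congr_deriv ?_).hasDerivWithinAt
        field_simp)
      (fun x hx => hMb x hx.1 hx.2.le)
    have h2 := h1 (x := σ) ⟨hβ, le_rfl⟩
    refine h2.trans ?_
    have h3 : 0 < Real.exp (-(b * (σ - β))) := Real.exp_pos _
    calc 2 * η * ‖G1 β‖ / b * (1 - Real.exp (-(b * (σ - β)))) ≤ 2 * η * ‖G1 β‖ / b * 1 := by
          gcongr
          linarith
      _ = _ := by rw [hb]; field_simp; ring
  -- conclusion
  have hF1β : F1 β = 0 := by rw [hF1]; simp only; rw [hF0, mul_zero]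
  have hMβ : M β = G1 β / L := by rw [hM]; simp only; rw [hF1β, zero_add]
  have hF1σ : F1 σ = F (σ + T * I) := by
    rw [hF1, he]; simp
  have hGσ : ‖G1 σ‖ ≤ ‖G1 β‖ * (1 / 4) := by
    refine (hdec σ hβ le_rfl).trans ?_
    gcongr
    have h1 : 2 ≤ b * (σ - β) := by rw [hb]; linarith
    rw [Real.exp_neg, inv_le_comm₀ (Real.exp_pos _) (by norm_num)]
    have h2 := Real.add_one_le_exp (1 : ℝ)
    have h3 : Real.exp 2 = Real.exp 1 * Real.exp 1 := by rw [← Real.exp_add]; norm_num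
    have h4 : Real.exp 2 ≤ Real.exp (b * (σ - β)) := Real.exp_le_exp.2 h1
    nlinarith
  have hFσ : F (σ + T * I) = G1 β / L + (M σ - M β) - G1 σ / L := by
    rw [← hF1σ, hMβ, hM]; ring
  have hnorm : ‖G1 β‖ / (2 * L) ≤ ‖F (σ + T * I)‖ := by
    have e1 : ‖G1 β / L‖ = ‖G1 β‖ / L := by rw [norm_div, norm_real, Real.norm_of_nonneg hL.le]
    have e2 : ‖G1 σ / L‖ ≤ ‖G1 β‖ * (1 / 4) / L := by
      rw [norm_div, norm_real, Real.norm_of_nonneg hL.le]
      gcongr
    have e3 : ‖G1 β / L‖ ≤ ‖F (σ + T * I)‖ + ‖M σ - M β‖ + ‖G1 σ / L‖ := by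
      have : G1 β / L = F (σ + T * I) - (M σ - M β) + G1 σ / L := by rw [hFσ]; ring
      rw [this]
      exact (norm_add_le _ _).trans (add_le_add (norm_sub_le _ _) le_rfl)
    have e4 : ‖M σ - M β‖ ≤ ‖G1 β‖ * (1 / 4) / L := by
      refine hMσ.trans ?_
      gcongr ?_ / L
      nlinarith [norm_nonneg (G1 β)]
    rw [e1] at e3
    have e5 : ‖G1 β‖ / (2 * L) = ‖G1 β‖ / L - ‖G1 β‖ * (1 / 4) / L - ‖G1 β‖ * (1 / 4) / L := by
      field_simp; ring
    rw [e5]; linarith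
  refine le_trans ?_ hnorm
  have h1 : ‖G1 β‖ = ‖e β‖ * ‖G (β + T * I)‖ := by rw [hG1, norm_mul]
  rw [h1]
  have h2 : Real.exp (-‖a‖) ≤ ‖e β‖ := by
    rw [he, Complex.norm_exp]
    apply Real.exp_le_exp.2
    have h3 : ‖-a * ((β : ℂ) - σ)‖ ≤ ‖a‖ := by
      rw [norm_mul, norm_neg, ← ofReal_sub, norm_real, Real.norm_eq_abs, abs_sub_comm, abs_of_nonneg (by linarith)]
      exact mul_le_of_le_one_right (norm_nonneg _) hβ1
    have h4 := (abs_re_le_norm (-a * ((β : ℂ) - σ))).trans h3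
    exact (abs_le.1 h4).1
  gcongr

end Q240.SH
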