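import Pool.Agent.Q240.SH.Z5

/-!
# The logarithmic derivative in a zero free box
-/

set_option autoImplicit false

namespace Q240.SH

open Complex Filter Topology Metric Set

/-- the class of functions under consideration -/
structure Cls (F : ℂ → ℂ) : Prop where
  an : ∀ s : ℂ, 0 < s.im → AnalyticAt ℂ F s
  big : ∀ η : ℝ, 0 < η → ∃ T0 : ℝ, 3 ≤ T0 ∧ ∀ s : ℂ, T0 ≤ s.im → -4 ≤ s.re → s.re ≤ 0 →
    Real.exp (Real.log s.im * (1 / 2 - s.re - η)) ≤ ‖F s‖ ∧
    ‖F s‖ ≤ Real.exp (Real.log s.im * (1 / 2 - s.re + η))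
  grow : ∃ A T0 : ℝ, 0 < A ∧ 3 ≤ T0 ∧ ∀ s : ℂ, T0 ≤ s.im → -4 ≤ s.re → s.re ≤ 4 →
    ‖F s‖ ≤ Real.exp (A * Real.log s.im)
  right : ∃ C T0 : ℝ, 0 < C ∧ ∀ s : ℂ, s.re = 2 → T0 ≤ s.im → ‖F s‖ ≤ C

/-- comparison of logarithms -/
theorem log_near {T y : ℝ} (hT : 100 ≤ T) (hy : |y - T| ≤ 4) : |Real.log y - Real.log T| ≤ 1 := by
  have hy' := abs_le.1 hy
  have hy0 : 0 < y := by linarith
  have hT0 : 0 < T := by linarith
  rw [← Real.log_div hy0.ne' hT0.ne']
  have h8 : y / T ≤ 2 := by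
    rw [div_le_iff₀ hT0]; linarith
  have h9 : 1 / 2 ≤ y / T := by
    rw [le_div_iff₀ hT0]; linarith
  have h10 : 0 < y / T := by positivity
  rw [abs_le]
  constructor
  · have h11 := Real.one_sub_inv_le_log_of_pos h10
    have h12 : (y / T)⁻¹ ≤ 2 := by
      rw [inv_le_comm₀ h10 (by norm_num)]
      linarith
    linarith
  · have h11 := Real.log_le_sub_one_of_pos h10
    linarith

theorem logder {F : ℂ → ℂ} (hF : Cls F) (α ε η : ℝ) (hε : 0 < ε) (hεα : ε ≤ α) (hα : α ≤ 1 / 2)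
    (hη : 0 < η) : ∃ T0 : ℝ, 100 ≤ T0 ∧ ∀ T : ℝ, T0 ≤ T →
    (∀ s : ℂ, 0 < s.re → s.re < α → |s.im - T| ≤ 4 → F s ≠ 0) →
    ∀ s : ℂ, s.im = T → 0 ≤ s.re → s.re ≤ α - ε → F s ≠ 0 ∧
      ‖logDeriv F s + Real.log T‖ ≤ η * Real.log T ∧
      Real.exp (Real.log T * (1 / 2 - s.re - η)) ≤ ‖F s‖ ∧
      ‖F s‖ ≤ Real.exp (Real.log T * (1 / 2 - s.re + η)) := by
  have hα0 : 0 < α := by linarith
  obtain ⟨r, hr⟩ : ∃ r : ℝ, r = 2 / 3 * α := ⟨_, rfl⟩
  have hr0 : 0 < r := by rw [hr]; positivity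
  have hr1 : r ≤ 1 / 3 := by rw [hr]; linarith
  have hrε : 0 < ε / r := by positivity
  obtain ⟨A, T1, hA, hT1, hgr⟩ := hF.grow
  obtain ⟨e, he, hS⟩ := Pool.Agent.H986R2.K4.sab (min (1 / 4) (ε / r)) (η * r) (2 * A)
    (lt_min (by norm_num) hrε) (min_le_left _ _) (by positivity) (by positivity)
  obtain ⟨T2, hT2, hbig⟩ := hF.big (e / 4) (by positivity)
  obtain ⟨T3, hT3⟩ : ∃ T3 : ℝ, ∀ t : ℝ, T3 ≤ t → 10 / e + 4 ≤ Real.log t :=
    Filter.eventually_atTop.1 (Real.tendsto_log_atTop.eventually_ge_atTop _)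
  refine ⟨max (max (T1 + 10) (T2 + 10)) (max T3 100), (le_max_right _ _).trans (le_max_right _ _), ?_⟩
  intro T hT hz s hs hs1 hs2
  have ha1 : T1 + 10 ≤ T := ((le_max_left _ _).trans (le_max_left _ _)).trans hT
  have ha2 : T2 + 10 ≤ T := ((le_max_right _ _).trans (le_max_left _ _)).trans hT
  have ha3 : T3 ≤ T := ((le_max_left _ _).trans (le_max_right _ _)).trans hT
  have ha4 : 100 ≤ T := ((le_max_right _ _).trans (le_max_right _ _)).trans hT
  obtain ⟨L, hL⟩ : ∃ L : ℝ, L = Real.log T := ⟨_, rfl⟩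
  have hLb := hT3 T ha3
  rw [← hL] at hLb ⊢
  have h8e : 0 < 10 / e := by positivity
  have hL4 : 4 ≤ L := by linarith
  have hL0 : 0 < L := by linarith
  have heL : 10 ≤ e * L := by
    have : 10 / e ≤ L := by linarith
    rwa [div_le_iff₀ he, mul_comm] at this
  obtain ⟨pt, hpt⟩ : ∃ pt : ℂ → ℂ, pt = fun u => (α : ℂ) + (T : ℂ) * I - (r : ℂ) * u := ⟨_, rfl⟩
  have hptre : ∀ u, (pt u).re = α - r * u.re := by intro u; simp [hpt]
  have hptim : ∀ u, (pt u).im = T - r * u.im := by intro u; simp [hpt]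
  have hptd : ∀ u, HasDerivAt pt (-(r : ℂ)) u := by
    intro u
    have h0 := ((hasDerivAt_id u).const_mul (r : ℂ)).const_sub ((α : ℂ) + (T : ℂ) * I)
    rw [hpt]
    exact h0.congr_deriv (by rw [mul_one])
  obtain ⟨g, hg⟩ : ∃ g : ℂ → ℂ, g = fun u => F (pt u) * cexp ((L : ℂ) * (pt u - 1 / 2)) := ⟨_, rfl⟩
  have hgn : ∀ u, ‖g u‖ = ‖F (pt u)‖ * Real.exp (L * ((pt u).re - 1 / 2)) := by
    intro u
    rw [hg, norm_mul, Complex.norm_exp]
    congr 2
    simp [sub_re]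
  -- the geometry
  have hgeo : ∀ u : ℂ, 0 < u.re → u.re ≤ 10 → |u.im| ≤ 10 → (pt u).re < α ∧ -4 ≤ (pt u).re ∧
      |(pt u).im - T| ≤ 4 := by
    intro u h1 h2 h3
    have h3' := abs_le.1 h3
    rw [hptre, hptim]
    have e1 : 0 < r * u.re := mul_pos hr0 h1
    have e2 : r * u.re ≤ 1 / 3 * 10 := mul_le_mul hr1 h2 h1.le (by norm_num)
    refine ⟨by linarith, by linarith, ?_⟩
    rw [show T - r * u.im - T = -(r * u.im) by ring, abs_neg, abs_mul, abs_of_pos hr0]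
    calc r * |u.im| ≤ 1 / 3 * 10 := mul_le_mul hr1 h3 (abs_nonneg _) (by norm_num)
      _ ≤ 4 := by norm_num
  have hne : ∀ u : ℂ, 0 < u.re → u.re ≤ 10 → |u.im| ≤ 10 → F (pt u) ≠ 0 := by
    intro u h1 h2 h3
    obtain ⟨h4, h5, h6⟩ := hgeo u h1 h2 h3
    rcases lt_or_ge 0 (pt u).re with h7 | h7
    · exact hz _ h7 h4 h6
    · have h6' := abs_le.1 h6
      have := (hbig (pt u) (by linarith) h5 h7).1
      intro h0
      rw [h0, norm_zero] at this
      exact absurd this (not_le.2 (Real.exp_pos _))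
  have hmain := hS L g (by linarith) (by
    intro u h1 h2 h3
    obtain ⟨h4, h5, h6⟩ := hgeo u h1 h2 h3
    have h6' := abs_le.1 h6
    have h7 := hne u h1 h2 h3
    refine ⟨?_, ?_, ?_⟩
    · have hd1 : DifferentiableAt ℂ (fun u => F (pt u)) u :=
        DifferentiableAt.comp u (hF.an (pt u) (by linarith)).differentiableAt (hptd u).differentiableAt
      have hd2 : DifferentiableAt ℂ (fun u => cexp ((L : ℂ) * (pt u - 1 / 2))) u :=
        (((hptd u).differentiableAt.sub_const _).const_mul _).cexp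
      rw [hg]
      exact hd1.mul hd2
    · rw [hg]
      exact mul_ne_zero h7 (Complex.exp_ne_zero _)
    · rw [hgn]
      have h8 := hgr (pt u) (by linarith) h5 (by linarith)
      have h9 : Real.log (pt u).im ≤ 2 * L := by
        rw [hL]
        have h1 : Real.log (pt u).im ≤ Real.log (T ^ 2) := Real.log_le_log (by linarith) (by nlinarith)
        rwa [Real.log_pow] at h1
      calc ‖F (pt u)‖ * Real.exp (L * ((pt u).re - 1 / 2)) ≤ Real.exp (A * (2 * L)) * 1 := by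
            gcongr
            · exact h8.trans (Real.exp_le_exp.2 (by gcongr))
            · rw [Real.exp_le_one_iff]
              exact mul_nonpos_of_nonneg_of_nonpos hL0.le (by linarith)
        _ = _ := by rw [mul_one]; congr 1; ring) (by
    intro u h1 h2 h3
    obtain ⟨h4, h5, h6⟩ := hgeo u (by linarith) h2 h3
    have h6' := abs_le.1 h6
    have h7 : (pt u).re ≤ 0 := by
      rw [hptre]
      have e1 : r * (3 / 2) ≤ r * u.re := mul_le_mul_of_nonneg_left h1 hr0.le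
      rw [hr] at e1 ⊢
      linarith
    obtain ⟨b1, b2⟩ := hbig (pt u) (by linarith) h5 h7
    have h8 := abs_le.1 (log_near ha4 h6)
    rw [← hL] at h8
    obtain ⟨l, hl⟩ : ∃ l : ℝ, l = Real.log (pt u).im := ⟨_, rfl⟩
    rw [← hl] at b1 b2 h8
    obtain ⟨x, hx⟩ : ∃ x : ℝ, x = 1 / 2 - (pt u).re := ⟨_, rfl⟩
    rw [← hx] at b1 b2
    have hx1 : 0 ≤ x := by linarith
    have hx2 : x ≤ 9 / 2 := by linarith
    have hlx1 : (l - L) * x ≤ 9 / 2 := by
      calc (l - L) * x ≤ 1 * x := mul_le_mul_of_nonneg_right (by linarith) hx1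
        _ ≤ 9 / 2 := by linarith
    have hlx2 : -(9 / 2) ≤ (l - L) * x := by
      calc -(9 / 2 : ℝ) ≤ (-1) * x := by linarith
        _ ≤ (l - L) * x := mul_le_mul_of_nonneg_right (by linarith) hx1
    have hle : l * (e / 4) ≤ (L + 1) * (e / 4) := mul_le_mul_of_nonneg_right (by linarith) (by positivity)
    have hLe : 1 * (e / 4) ≤ L * (e / 4) := mul_le_mul_of_nonneg_right (by linarith) (by positivity)
    rw [hgn, show L * ((pt u).re - 1 / 2) = -(L * x) by rw [hx]; ring]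
    constructor
    · calc Real.exp (-(e * L)) ≤ Real.exp (l * (x - e / 4)) * Real.exp (-(L * x)) := by
            rw [← Real.exp_add]
            apply Real.exp_le_exp.2
            linarith
        _ ≤ _ := by gcongr
    · calc ‖F (pt u)‖ * Real.exp (-(L * x)) ≤ Real.exp (l * (x + e / 4)) * Real.exp (-(L * x)) := by gcongr
        _ ≤ _ := by
            rw [← Real.exp_add]
            apply Real.exp_le_exp.2
            linarith)
  -- the point
  obtain ⟨x, hx⟩ : ∃ x : ℝ, x = (α - s.re) / r := ⟨_, rfl⟩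
  have hxr : r * x = α - s.re := by rw [hx]; field_simp
  have hps : pt (x : ℂ) = s := by
    apply Complex.ext
    · rw [hptre, ofReal_re, hxr]; ring
    · rw [hptim, ofReal_im, mul_zero, sub_zero, hs]
  have hx1 : min (1 / 4) (ε / r) ≤ x := by
    refine (min_le_right _ _).trans ?_
    rw [hx]
    apply div_le_div_of_nonneg_right _ hr0.le
    linarith
  have hx2 : x ≤ 3 / 2 := by
    rw [hx, div_le_iff₀ hr0, hr]
    linarith
  have hx0 : 0 < x := lt_of_lt_of_le (lt_min (by norm_num) hrε) hx1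
  have hnes := hne (x : ℂ) (by rw [ofReal_re]; exact hx0) (by rw [ofReal_re]; linarith)
    (by rw [ofReal_im]; norm_num)
  obtain ⟨m1, m2, m3⟩ := hmain (x : ℂ) (by rw [ofReal_re]; exact hx1) (by rw [ofReal_re]; linarith)
    (by rw [ofReal_im]; norm_num)
  have hsi : 0 < s.im := by rw [hs]; linarith
  rw [hps] at hnes
  have hld : logDeriv g (x : ℂ) = -(r : ℂ) * (logDeriv F s + L) := by
    have hd1 : HasDerivAt (fun u => F (pt u)) (deriv F s * (-(r : ℂ))) (x : ℂ) := by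
      have h1 : HasDerivAt F (deriv F s) (pt (x : ℂ)) := by
        rw [hps]; exact (hF.an s hsi).differentiableAt.hasDerivAt
      exact HasDerivAt.comp (x : ℂ) h1 (hptd (x : ℂ))
    have hd2 : HasDerivAt (fun u => cexp ((L : ℂ) * (pt u - 1 / 2)))
        (cexp ((L : ℂ) * (s - 1 / 2)) * ((L : ℂ) * (-(r : ℂ)))) (x : ℂ) := by
      have := (((hptd (x : ℂ)).sub_const (1 / 2)).const_mul (L : ℂ)).cexp
      rw [hps] at this
      exact this
    have hd3 := hd1.mul hd2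
    have hE := Complex.exp_ne_zero ((L : ℂ) * (s - 1 / 2))
    rw [logDeriv_apply, hg]
    have h1 : deriv (fun u => F (pt u) * cexp ((L : ℂ) * (pt u - 1 / 2))) (x : ℂ) =
        deriv F s * (-(r : ℂ)) * cexp ((L : ℂ) * (pt (x : ℂ) - 1 / 2)) +
        F (pt (x : ℂ)) * (cexp ((L : ℂ) * (s - 1 / 2)) * ((L : ℂ) * (-(r : ℂ)))) := hd3.deriv
    rw [h1]
    simp only [hps]
    rw [logDeriv_apply]
    field_simp
    ring
  rw [hld, norm_mul, norm_neg, norm_real, Real.norm_of_nonneg hr0.le] at m1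
  rw [hgn, hps] at m2 m3
  refine ⟨hnes, ?_, ?_, ?_⟩
  · have : r * ‖logDeriv F s + (L : ℂ)‖ ≤ r * (η * L) := by
      calc _ ≤ η * r * L := m1
        _ = _ := by ring
    exact le_of_mul_le_mul_left this hr0
  · have h1 : Real.exp (-(η * r * L)) * Real.exp (L * (1 / 2 - s.re)) ≤ ‖F s‖ := by
      calc _ ≤ (‖F s‖ * Real.exp (L * (s.re - 1 / 2))) * Real.exp (L * (1 / 2 - s.re)) := by gcongr
        _ = ‖F s‖ := by
            rw [mul_assoc, ← Real.exp_add, show L * (s.re - 1 / 2) + L * (1 / 2 - s.re) = 0 by ring,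
              Real.exp_zero, mul_one]
    refine le_trans ?_ h1
    rw [← Real.exp_add]
    apply Real.exp_le_exp.2
    have : η * r * L ≤ η * 1 * L := by gcongr; linarith
    linarith
  · have h1 : ‖F s‖ ≤ Real.exp (η * r * L) * Real.exp (L * (1 / 2 - s.re)) := by
      calc ‖F s‖ = (‖F s‖ * Real.exp (L * (s.re - 1 / 2))) * Real.exp (L * (1 / 2 - s.re)) := by
            rw [mul_assoc, ← Real.exp_add, show L * (s.re - 1 / 2) + L * (1 / 2 - s.re) = 0 by ring,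
              Real.exp_zero, mul_one]
        _ ≤ _ := by gcongr
    refine h1.trans ?_
    rw [← Real.exp_add]
    apply Real.exp_le_exp.2
    have : η * r * L ≤ η * 1 * L := by gcongr; linarith
    linarith

/-- zeros of `F' - a F` are close to zeros of `F` -/
theorem step_up {F G : ℂ → ℂ} (hF : Cls F) (a : ℂ)
    (hG : ∀ s : ℂ, 0 < s.im → G s = deriv F s - a * F s) (α ε : ℝ) (hε : 0 < ε) (hα : α ≤ 1 / 2) :
    ∃ C T0 : ℝ, ∀ ρ : ℂ, G ρ = 0 → 0 ≤ ρ.re → ρ.re ≤ α - ε → T0 ≤ ρ.im →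
      ∃ s : ℂ, F s = 0 ∧ 0 < s.re ∧ s.re < α ∧ |s.im - ρ.im| ≤ C := by
  rcases lt_or_ge α ε with h | h
  · exact ⟨0, 0, fun ρ _ h1 h2 _ => absurd h1 (by linarith)⟩
  obtain ⟨T0, hT0, hld⟩ := logder hF α ε (1 / 2) hε h hα (by norm_num)
  obtain ⟨T1, hT1⟩ : ∃ T1 : ℝ, ∀ t : ℝ, T1 ≤ t → 2 * ‖a‖ + 1 ≤ Real.log t :=
    Filter.eventually_atTop.1 (Real.tendsto_log_atTop.eventually_ge_atTop _)
  refine ⟨4, max T0 T1, fun ρ h0 h1 h2 h3 => ?_⟩
  by_contra hcon
  push Not at hcon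
  have ha : T0 ≤ ρ.im := (le_max_left _ _).trans h3
  have hb : T1 ≤ ρ.im := (le_max_right _ _).trans h3
  obtain ⟨q1, q2, -, -⟩ := hld ρ.im ha (fun s s1 s2 s3 s4 => absurd (hcon s s4 s1 s2) (not_lt.2 s3))
    ρ rfl h1 h2
  have hl := hT1 ρ.im hb
  rw [hG ρ (by linarith)] at h0
  have h4 : logDeriv F ρ = a := by
    rw [logDeriv_apply, div_eq_iff q1]
    exact sub_eq_zero.1 h0
  rw [h4] at q2
  have h5 : Real.log ρ.im ≤ ‖a + (Real.log ρ.im : ℂ)‖ + ‖a‖ := by
    have h6 : ‖((Real.log ρ.im : ℝ) : ℂ)‖ ≤ ‖a + (Real.log ρ.im : ℂ)‖ + ‖a‖ := by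
      calc ‖((Real.log ρ.im : ℝ) : ℂ)‖ = ‖(a + (Real.log ρ.im : ℂ)) - a‖ := by
            congr 1; ring
        _ ≤ _ := norm_sub_le _ _
    rw [norm_real] at h6
    exact (le_abs_self _).trans h6
  linarith

end Q240.SH
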