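import Pool.Agent.Q240.SH.Down

/-!
# Linear differential polynomials in zeta plus exponential sums
-/

set_option autoImplicit false

namespace Q240.SH

open Complex Filter Topology Metric Set Polynomial

/-- `P(D) ζ (s) + ∑ c(l) exp (-l s)` -/
noncomputable def LD (P : ℂ[X]) (S : Finset ℝ) (c : ℝ → ℂ) (s : ℂ) : ℂ :=
  ∑ i ∈ Finset.range (P.natDegree + 1), P.coeff i * iteratedDeriv i riemannZeta s +
    ∑ l ∈ S, c l * cexp (-(l * s))

/-- the zeta part -/
noncomputable def LP (P : ℂ[X]) (s : ℂ) : ℂ := P.sum fun i a => a * iteratedDeriv i riemannZeta s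

/-- the exponential part -/
noncomputable def ES (S : Finset ℝ) (c : ℝ → ℂ) (s : ℂ) : ℂ := ∑ l ∈ S, c l * cexp (-(l * s))

theorem LD_eq (P : ℂ[X]) (S : Finset ℝ) (c : ℝ → ℂ) (s : ℂ) : LD P S c s = LP P s + ES S c s := by
  rw [LD, LP, ES, Polynomial.sum_over_range]
  intro n
  simp

theorem LP_add (P Q : ℂ[X]) (s : ℂ) : LP (P + Q) s = LP P s + LP Q s := by
  rw [LP, LP, LP, Polynomial.sum_add_index]
  · intro i; simp
  · intro i a b; ring

theorem LP_monomial (n : ℕ) (a : ℂ) (s : ℂ) : LP (monomial n a) s = a * iteratedDeriv n riemannZeta s := by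
  rw [LP, Polynomial.sum_monomial_index]
  simp

theorem LP_C_mul (a : ℂ) (P : ℂ[X]) (s : ℂ) : LP (C a * P) s = a * LP P s := by
  induction P using Polynomial.induction_on' with
  | add P Q hP hQ => rw [mul_add, LP_add, LP_add, hP, hQ, mul_add]
  | monomial n b => rw [C_mul_monomial, LP_monomial, LP_monomial, mul_assoc]

theorem LP_deriv (P : ℂ[X]) {s : ℂ} (hs : s ≠ 1) : HasDerivAt (LP P) (LP (X * P) s) s := by
  induction P using Polynomial.induction_on' with
  | add P Q hP hQ =>
    have h1 : LP (P + Q) = fun s => LP P s + LP Q s := by funext s; exact LP_add P Q s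
    rw [h1, mul_add, LP_add]
    exact hP.add hQ
  | monomial n b =>
    have h1 : LP (monomial n b) = fun s => b * iteratedDeriv n riemannZeta s := by
      funext s; exact LP_monomial n b s
    rw [h1, X_mul_monomial, LP_monomial, iteratedDeriv_succ]
    exact ((Q240.QS.an_it n hs).differentiableAt.hasDerivAt).const_mul b

theorem LP_an (P : ℂ[X]) {s : ℂ} (hs : s ≠ 1) : AnalyticAt ℂ (LP P) s := by
  have ho : IsOpen ({1}ᶜ : Set ℂ) := isOpen_compl_singleton
  exact DifferentiableOn.analyticAt (s := {1}ᶜ)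
    (fun z hz => (LP_deriv P hz).differentiableAt.differentiableWithinAt) (ho.mem_nhds hs)

theorem ES_deriv (S : Finset ℝ) (c : ℝ → ℂ) (s : ℂ) :
    HasDerivAt (ES S c) (ES S (fun l => -l * c l) s) s := by
  unfold ES
  apply HasDerivAt.fun_sum
  intro l _
  have h1 : HasDerivAt (fun z : ℂ => cexp (-(l * z))) (cexp (-(l * s)) * (-l)) s := by
    have h2 := ((hasDerivAt_id s).const_mul (l : ℂ)).neg.cexp
    rw [mul_one] at h2
    exact h2
  refine (h1.const_mul (c l)).congr_deriv ?_
  ring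

theorem ES_bound (S : Finset ℝ) (c : ℝ → ℂ) : ∃ B : ℝ, 0 < B ∧ ∀ s : ℂ, |s.re| ≤ 5 → ‖ES S c s‖ ≤ B := by
  refine ⟨∑ l ∈ S, ‖c l‖ * Real.exp (|l| * 5) + 1, by positivity, fun s hs => ?_⟩
  have h1 : ‖ES S c s‖ ≤ ∑ l ∈ S, ‖c l‖ * Real.exp (|l| * 5) := by
    refine norm_sum_le_of_le _ fun l _ => ?_
    rw [norm_mul, Complex.norm_exp]
    gcongr
    rw [neg_re, re_ofReal_mul]
    calc -(l * s.re) ≤ |l * s.re| := neg_le_abs _
      _ = |l| * |s.re| := abs_mul _ _
      _ ≤ |l| * 5 := by gcongr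
  linarith

theorem ex_all {Q : ℕ → ℂ → Prop} (n : ℕ) (h : ∀ i, ∃ T0 : ℝ, ∀ s : ℂ, T0 ≤ s.im → Q i s) :
    ∃ T0 : ℝ, ∀ i, i < n → ∀ s : ℂ, T0 ≤ s.im → Q i s := by
  choose T hT using h
  refine ⟨∑ i ∈ Finset.range n, |T i|, fun i hi s hs => hT i s (le_trans ?_ hs)⟩
  calc T i ≤ |T i| := le_abs_self _
    _ ≤ _ := Finset.single_le_sum (f := fun i => |T i|) (fun j _ => abs_nonneg _) (Finset.mem_range.2 hi)

theorem cls_LD (P : ℂ[X]) (hP : P ≠ 0) (S : Finset ℝ) (c : ℝ → ℂ) : Cls (LD P S c) := by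
  have hfun : LD P S c = fun s => LP P s + ES S c s := by funext s; exact LD_eq P S c s
  obtain ⟨B, hB, hES⟩ := ES_bound S c
  have hLP : ∀ s : ℂ, LP P s = ∑ i ∈ Finset.range (P.natDegree + 1), P.coeff i * iteratedDeriv i riemannZeta s := by
    intro s
    rw [LP, Polynomial.sum_over_range]
    intro n; simp
  obtain ⟨W, hW⟩ : ∃ W : ℝ, W = ∑ i ∈ Finset.range (P.natDegree + 1), ‖P.coeff i‖ := ⟨_, rfl⟩
  have hW0 : 0 ≤ W := by rw [hW]; positivity
  refine ⟨?_, ?_, ?_, ?_⟩
  · intro s hs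
    have hs1 : s ≠ 1 := by
      intro h
      rw [h, one_im] at hs
      exact lt_irrefl _ hs
    rw [hfun]
    have h2 : AnalyticAt ℂ (ES S c) s := by
      have hd : Differentiable ℂ (ES S c) := fun z => (ES_deriv S c z).differentiableAt
      exact hd.analyticAt s
    exact (LP_an P hs1).add h2
  · intro η hη
    obtain ⟨m, hm⟩ : ∃ m : ℕ, m = P.natDegree := ⟨_, rfl⟩
    obtain ⟨p, hp⟩ : ∃ p : ℝ, p = ‖P.coeff m‖ := ⟨_, rfl⟩
    have hp0 : 0 < p := by
      rw [hp, hm]
      exact norm_pos_iff.2 (by rw [Polynomial.coeff_natDegree]; exact Polynomial.leadingCoeff_ne_zero.2 hP)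
    obtain ⟨T1, hT1, h1⟩ := ratio5 m (1 / 8) (by norm_num)
    obtain ⟨T2, h2⟩ := ex_all (Q := fun i s => -4 ≤ s.re → s.re ≤ 0 →
      ‖iteratedDeriv i riemannZeta s - (-((Real.log s.im : ℝ) : ℂ)) ^ i * riemannZeta s‖ ≤
      1 * Real.log s.im ^ i * ‖riemannZeta s‖) m (fun i => by
        obtain ⟨T, _, h⟩ := ratio5 i 1 one_pos
        exact ⟨T, fun s h1 h2 h3 => (h s h1 h2 h3).2⟩)
    obtain ⟨T3, hT3, h3⟩ := zl (min (η / 2) (1 / 4)) (lt_min (by positivity) (by norm_num))
    obtain ⟨T4, hT4, h4⟩ := Q240.QS.ev_exp (2 * p) (half_pos hη) m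
    obtain ⟨T5, hT5, h5⟩ := Q240.QS.ev_exp (2 / p) (half_pos hη) 0
    obtain ⟨T6, hT6, h6⟩ := Q240.QS.ev_exp (8 * B / p) (show (0 : ℝ) < 1 / 4 by norm_num) 0
    obtain ⟨T7, h7⟩ : ∃ T7 : ℝ, ∀ t : ℝ, T7 ≤ t → 16 * W / p + 1 ≤ Real.log t :=
      Filter.eventually_atTop.1 (Real.tendsto_log_atTop.eventually_ge_atTop _)
    refine ⟨max (max (max T1 T2) (max T3 T4)) (max (max T5 T6) T7), ?_, fun s hs hs1 hs2 => ?_⟩
    · exact hT1.trans (((le_max_left _ _).trans (le_max_left _ _)).trans (le_max_left _ _))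
    have a1 : T1 ≤ s.im := (((le_max_left _ _).trans (le_max_left _ _)).trans (le_max_left _ _)).trans hs
    have a2 : T2 ≤ s.im := (((le_max_right _ _).trans (le_max_left _ _)).trans (le_max_left _ _)).trans hs
    have a3 : T3 ≤ s.im := (((le_max_left _ _).trans (le_max_right _ _)).trans (le_max_left _ _)).trans hs
    have a4 : T4 ≤ s.im := (((le_max_right _ _).trans (le_max_right _ _)).trans (le_max_left _ _)).trans hs
    have a5 : T5 ≤ s.im := (((le_max_left _ _).trans (le_max_left _ _)).trans (le_max_right _ _)).trans hs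
    have a6 : T6 ≤ s.im := (((le_max_right _ _).trans (le_max_left _ _)).trans (le_max_right _ _)).trans hs
    have a7 : T7 ≤ s.im := ((le_max_right _ _).trans (le_max_right _ _)).trans hs
    obtain ⟨hz, h1⟩ := h1 s a1 hs1 hs2
    obtain ⟨z1, z2⟩ := h3 s a3 hs1 hs2
    have h4 := h4 s.im a4
    have h5 := h5 s.im a5
    have h6 := h6 s.im a6
    have h7 := h7 s.im a7
    rw [pow_zero, mul_one] at h5 h6
    obtain ⟨L, hL⟩ : ∃ L : ℝ, L = Real.log s.im := ⟨_, rfl⟩
    rw [← hL] at h1 h4 h5 h6 h7 z1 z2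
    have hWp : 0 ≤ 16 * W / p := by positivity
    have hL1 : 1 ≤ L := by linarith
    have hL0 : 0 < L := by linarith
    obtain ⟨Z, hZ⟩ : ∃ Z : ℝ, Z = ‖riemannZeta s‖ := ⟨_, rfl⟩
    rw [← hZ] at h1 z1 z2
    have hZ0 : 0 < Z := by rw [hZ]; exact norm_pos_iff.2 hz
    have hLm : 1 ≤ L ^ m := one_le_pow₀ hL1
    have hmin1 := min_le_left (η / 2) (1 / 4)
    have hmin2 := min_le_right (η / 2) (1 / 4)
    -- the main term
    obtain ⟨w, hw⟩ : ∃ w : ℂ, w = P.coeff m * ((-((L : ℝ) : ℂ)) ^ m * riemannZeta s) := ⟨_, rfl⟩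
    have hwn : ‖w‖ = p * (L ^ m * Z) := by
      rw [hw, norm_mul, norm_mul, norm_pow, norm_neg, norm_real, Real.norm_of_nonneg hL0.le, ← hp, ← hZ]
    have hdiff : ‖LD P S c s - w‖ ≤ p * (L ^ m * Z) / 2 := by
      rw [LD_eq, hLP, ← hm, Finset.sum_range_succ]
      have e1 : ∑ i ∈ Finset.range m, P.coeff i * iteratedDeriv i riemannZeta s +
          P.coeff m * iteratedDeriv m riemannZeta s + ES S c s - w =
          ∑ i ∈ Finset.range m, P.coeff i * iteratedDeriv i riemannZeta s +
          P.coeff m * (iteratedDeriv m riemannZeta s - (-((L : ℝ) : ℂ)) ^ m * riemannZeta s) + ES S c s := by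
        rw [hw]; ring
      rw [e1]
      have e2 : ‖∑ i ∈ Finset.range m, P.coeff i * iteratedDeriv i riemannZeta s‖ ≤
          p * (L ^ m * Z) / 8 := by
        have e3 : ‖∑ i ∈ Finset.range m, P.coeff i * iteratedDeriv i riemannZeta s‖ ≤
            ∑ i ∈ Finset.range m, ‖P.coeff i‖ * (2 * (L ^ m * Z) / L) := by
          refine norm_sum_le_of_le _ fun i hi => ?_
          rw [norm_mul]
          gcongr
          have hi' := Finset.mem_range.1 hi
          have e4 := h2 i hi' s a2 hs1 hs2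
          rw [← hL, ← hZ] at e4
          have e5 : ‖(-((L : ℝ) : ℂ)) ^ i * riemannZeta s‖ = L ^ i * Z := by
            rw [norm_mul, norm_pow, norm_neg, norm_real, Real.norm_of_nonneg hL0.le, ← hZ]
          have e6 : ‖iteratedDeriv i riemannZeta s‖ ≤ 2 * (L ^ i * Z) := by
            have := norm_le_norm_sub_add (iteratedDeriv i riemannZeta s) ((-((L : ℝ) : ℂ)) ^ i * riemannZeta s)
            rw [e5] at this
            linarith
          refine e6.trans ?_
          rw [le_div_iff₀ hL0]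
          have e7 : L ^ i * L ≤ L ^ m := by
            rw [← pow_succ]
            exact pow_le_pow_right₀ hL1 hi'
          calc 2 * (L ^ i * Z) * L = 2 * ((L ^ i * L) * Z) := by ring
            _ ≤ 2 * (L ^ m * Z) := by gcongr
        refine e3.trans ?_
        rw [← Finset.sum_mul]
        have e8 : ∑ i ∈ Finset.range m, ‖P.coeff i‖ ≤ W := by
          rw [hW, ← hm, Finset.sum_range_succ]
          linarith [norm_nonneg (P.coeff m)]
        have e9 : 16 * W ≤ p * L := by
          have : 16 * W / p ≤ L := by linarith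
          rwa [div_le_iff₀ hp0, mul_comm L] at this
        calc (∑ i ∈ Finset.range m, ‖P.coeff i‖) * (2 * (L ^ m * Z) / L) ≤
            W * (2 * (L ^ m * Z) / L) := by gcongr
          _ = (16 * W) * ((L ^ m * Z) / L) / 8 := by ring
          _ ≤ (p * L) * ((L ^ m * Z) / L) / 8 := by gcongr
          _ = p * (L ^ m * Z) / 8 := by field_simp
      have e3 : ‖P.coeff m * (iteratedDeriv m riemannZeta s - (-((L : ℝ) : ℂ)) ^ m * riemannZeta s)‖ ≤
          p * (L ^ m * Z) / 8 := by
        rw [norm_mul, ← hp]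
        calc p * ‖iteratedDeriv m riemannZeta s - (-((L : ℝ) : ℂ)) ^ m * riemannZeta s‖ ≤
            p * (1 / 8 * L ^ m * Z) := by gcongr
          _ = _ := by ring
      have e4 : ‖ES S c s‖ ≤ p * (L ^ m * Z) / 8 := by
        refine (hES s (by rw [abs_le]; constructor <;> linarith)).trans ?_
        have e5 : Real.exp (1 / 4 * L) ≤ Z := by
          refine le_trans ?_ z1
          apply Real.exp_le_exp.2
          have : 1 / 4 ≤ 1 / 2 - s.re - min (η / 2) (1 / 4) := by linarith
          calc 1 / 4 * L ≤ (1 / 2 - s.re - min (η / 2) (1 / 4)) * L := by gcongr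
            _ = _ := mul_comm _ _
        have e6 : 8 * B / p ≤ L ^ m * Z := by
          calc 8 * B / p ≤ Z := h6.trans e5
            _ = 1 * Z := (one_mul _).symm
            _ ≤ L ^ m * Z := by gcongr
        rw [div_le_iff₀ hp0] at e6
        linarith
      refine (norm_add_le _ _).trans ((add_le_add (norm_add_le _ _) le_rfl).trans ?_)
      have : 0 ≤ p * (L ^ m * Z) := by positivity
      linarith
    have hlow : p * (L ^ m * Z) / 2 ≤ ‖LD P S c s‖ := by
      have := norm_sub_norm_le w (LD P S c s)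
      rw [norm_sub_rev, hwn] at this
      linarith
    have hupp : ‖LD P S c s‖ ≤ 2 * (p * (L ^ m * Z)) := by
      have := norm_le_norm_sub_add (LD P S c s) w
      rw [hwn] at this
      have h0 : 0 ≤ p * (L ^ m * Z) := by positivity
      linarith
    rw [← hL]
    constructor
    · refine le_trans ?_ hlow
      have e1 : Real.exp (L * (1 / 2 - s.re - η)) * Real.exp (η / 2 * L) ≤ Z := by
        rw [← Real.exp_add]
        refine le_trans ?_ z1
        apply Real.exp_le_exp.2
        have : L * min (η / 2) (1 / 4) ≤ L * (η / 2) := by gcongr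
        linarith
      have e2 : Real.exp (L * (1 / 2 - s.re - η)) * (2 / p) ≤ Z := by
        refine le_trans ?_ e1
        gcongr
      have e3 : Real.exp (L * (1 / 2 - s.re - η)) ≤ Z * (p / 2) := by
        calc Real.exp (L * (1 / 2 - s.re - η)) = (Real.exp (L * (1 / 2 - s.re - η)) * (2 / p)) * (p / 2) := by
              field_simp
          _ ≤ Z * (p / 2) := by gcongr
      calc Real.exp (L * (1 / 2 - s.re - η)) ≤ Z * (p / 2) := e3
        _ = p * (1 * Z) / 2 := by ring
        _ ≤ p * (L ^ m * Z) / 2 := by gcongr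
    · refine hupp.trans ?_
      calc 2 * (p * (L ^ m * Z)) = (2 * p * L ^ m) * Z := by ring
        _ ≤ Real.exp (η / 2 * L) * Real.exp (L * (1 / 2 - s.re + min (η / 2) (1 / 4))) := by gcongr
        _ = Real.exp (η / 2 * L + L * (1 / 2 - s.re + min (η / 2) (1 / 4))) := by rw [Real.exp_add]
        _ ≤ _ := by
            apply Real.exp_le_exp.2
            have : L * min (η / 2) (1 / 4) ≤ L * (η / 2) := by gcongr
            linarith
  · obtain ⟨T1, h1⟩ := ex_all (Q := fun i s => -4 ≤ s.re → s.re ≤ 4 →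
      ‖iteratedDeriv i riemannZeta s‖ ≤ Real.exp (Real.log s.im * 17)) (P.natDegree + 1) (fun i => by
        obtain ⟨T, _, h⟩ := grow5 i
        exact ⟨T, h⟩)
    obtain ⟨T2, hT2, h2⟩ := Q240.QS.ev_exp (W + B) one_pos 0
    refine ⟨18, max T1 T2, by norm_num, hT2.trans (le_max_right _ _), fun s hs hs1 hs2 => ?_⟩
    have a1 : T1 ≤ s.im := (le_max_left _ _).trans hs
    have a2 : T2 ≤ s.im := (le_max_right _ _).trans hs
    have h3 := h2 s.im a2
    rw [pow_zero, mul_one, one_mul] at h3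
    have hl0 : 0 ≤ Real.log s.im := Real.log_nonneg (by linarith)
    rw [LD_eq, hLP]
    have e1 : ‖∑ i ∈ Finset.range (P.natDegree + 1), P.coeff i * iteratedDeriv i riemannZeta s‖ ≤
        W * Real.exp (Real.log s.im * 17) := by
      rw [hW, Finset.sum_mul]
      refine norm_sum_le_of_le _ fun i hi => ?_
      rw [norm_mul]
      gcongr
      exact h1 i (Finset.mem_range.1 hi) s a1 hs1 hs2
    have e2 := hES s (by rw [abs_le]; constructor <;> linarith)
    have e3 : 1 ≤ Real.exp (Real.log s.im * 17) := Real.one_le_exp (by positivity)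
    calc _ ≤ W * Real.exp (Real.log s.im * 17) + B := (norm_add_le _ _).trans (add_le_add e1 e2)
      _ ≤ W * Real.exp (Real.log s.im * 17) + B * Real.exp (Real.log s.im * 17) := by
          gcongr
          exact le_mul_of_one_le_right hB.le e3
      _ = (W + B) * Real.exp (Real.log s.im * 17) := by ring
      _ ≤ Real.exp (Real.log s.im) * Real.exp (Real.log s.im * 17) := by gcongr
      _ = _ := by rw [← Real.exp_add]; congr 1; ring
  · have hC : ∀ i, ∃ C : ℝ, 0 < C ∧ ∀ s : ℂ, s.re = 2 → 1 ≤ s.im →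
      ‖iteratedDeriv i riemannZeta s‖ ≤ C := right2
    choose C hC1 hC2 using hC
    refine ⟨∑ i ∈ Finset.range (P.natDegree + 1), ‖P.coeff i‖ * C i + B, 1, ?_, fun s hs1 hs2 => ?_⟩
    · have : 0 ≤ ∑ i ∈ Finset.range (P.natDegree + 1), ‖P.coeff i‖ * C i :=
        Finset.sum_nonneg fun i _ => mul_nonneg (norm_nonneg _) (hC1 i).le
      linarith
    · rw [LD_eq, hLP]
      have e1 : ‖∑ i ∈ Finset.range (P.natDegree + 1), P.coeff i * iteratedDeriv i riemannZeta s‖ ≤
          ∑ i ∈ Finset.range (P.natDegree + 1), ‖P.coeff i‖ * C i := by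
        refine norm_sum_le_of_le _ fun i hi => ?_
        rw [norm_mul]
        gcongr
        exact hC2 i s hs1 hs2
      have e2 := hES s (by rw [hs1]; norm_num)
      exact (norm_add_le _ _).trans (add_le_add e1 e2)

end Q240.SH
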