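import Pool.Agent.Q240.SH.FE5
import Pool.Agent.Q240.QS.One

/-!
# Derivatives of zeta for `-4 ≤ Re s ≤ 0`
-/

set_option autoImplicit false

namespace Q240.SH

open Complex Filter Topology Metric Set
open Q240.QS (Gd gd_one quot an_it ev_exp)

theorem near1 (η : ℝ) (hη : 0 < η) : ∃ T0 : ℝ, 3 ≤ T0 ∧ ∀ w : ℂ, 1 ≤ w.re → T0 ≤ w.im →
    riemannZeta w ≠ 0 ∧ Real.exp (-(η * Real.log w.im)) ≤ ‖riemannZeta w‖ ∧
    ‖riemannZeta w‖ ≤ Real.exp (η * Real.log w.im) := by
  obtain ⟨d1, K1, t1, hd1, hd1', hK1, ht1, hz⟩ := Pool.Agent.Y957.VK.zeta_all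
  obtain ⟨d2, K2, t2, hd2, hd2', hK2, ht2, hf⟩ := Pool.Agent.Y957.VK.zf_all
  obtain ⟨t3, ht3, h3⟩ := Pool.Agent.H986R2.K4.a1 (min η (1 / 2)) (lt_min hη (by norm_num))
  obtain ⟨t4, ht4, h4⟩ := ev_exp K1 hη 1
  have hev : ∀ᶠ L : ℝ in atTop, L ^ K2 ≤ Real.exp (η * L) := by
    have h := (isLittleO_rpow_exp_pos_mul_atTop K2 hη).bound (show (0 : ℝ) < 1 by norm_num)
    filter_upwards [h, eventually_ge_atTop 0] with L a1 a2
    rwa [one_mul, Real.norm_of_nonneg (by positivity), Real.norm_of_nonneg (Real.exp_pos _).le] at a1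
  obtain ⟨t5, ht5⟩ := Filter.eventually_atTop.1 (Real.tendsto_log_atTop.eventually hev)
  refine ⟨max (max t1 t2) (max t3 (max t4 (max t5 3))), ht1.trans ((le_max_left _ _).trans
    (le_max_left _ _)), fun w hw1 hw2 => ?_⟩
  have ha1 : t1 ≤ w.im := ((le_max_left _ _).trans (le_max_left _ _)).trans hw2
  have ha2 : t2 ≤ w.im := ((le_max_right _ _).trans (le_max_left _ _)).trans hw2
  have ha3 : t3 ≤ w.im := ((le_max_left _ _).trans (le_max_right _ _)).trans hw2
  have hr := ((le_max_right t3 (max t4 (max t5 3))).trans (le_max_right _ _)).trans hw2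
  have ha4 : t4 ≤ w.im := (le_max_left _ _).trans hr
  have ha5 : t5 ≤ w.im := ((le_max_left _ _).trans (le_max_right _ _)).trans hr
  have ha6 : 3 ≤ w.im := ((le_max_right _ _).trans (le_max_right _ _)).trans hr
  have hw0 : 0 < w.im := by linarith
  have hl1 : 1 ≤ Real.log w.im := by
    rw [Real.le_log_iff_exp_le hw0]
    linarith [Real.exp_one_lt_d9]
  rcases le_total (3 / 2) w.re with h5 | h5
  · obtain ⟨b1, -, b3, b4⟩ := h3 w (by linarith [min_le_right η (1 / 2)]) ha3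
    rw [Real.rpow_def_of_pos hw0] at b3 b4
    have hm := min_le_left η (1 / 2)
    refine ⟨b1, le_trans ?_ b3, b4.trans ?_⟩
    · apply Real.exp_le_exp.2
      nlinarith
    · apply Real.exp_le_exp.2
      nlinarith
  · have hww : w = ⟨w.re, w.im⟩ := rfl
    have hpos : ∀ e : ℝ, 0 < (Real.log |w.im|) ^ (e - 1) := by
      intro e
      rw [abs_of_pos hw0]
      positivity
    obtain ⟨f1, f2⟩ := hf w.re w.im (by rw [abs_of_pos hw0]; exact ha2) (by linarith [hpos d2])
      (by linarith)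
    have f3 := hz w.re w.im (by rw [abs_of_pos hw0]; exact ha1) (by linarith [hpos d1]) (by linarith)
    rw [← hww] at f1 f2 f3
    rw [abs_of_pos hw0] at f2 f3
    have hz0 : 0 < ‖riemannZeta w‖ := norm_pos_iff.2 f1
    refine ⟨f1, ?_, ?_⟩
    · rw [norm_inv] at f2
      have h6 := f2.trans (ht5 w.im ha5)
      rw [Real.exp_neg]
      exact inv_le_of_inv_le₀ hz0 h6
    · have h6 := h4 w.im ha4
      rw [pow_one] at h6
      exact f3.trans h6

theorem ld1 (ε : ℝ) (hε : 0 < ε) : ∃ T0 : ℝ, 3 ≤ T0 ∧ ∀ t : ℝ, T0 ≤ t → ∀ w : ℂ,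
    1 - 1 / Real.log t ≤ w.re → |w.im - t| ≤ 1 / 4 →
    riemannZeta w ≠ 0 ∧ ‖logDeriv riemannZeta w‖ ≤ ε * Real.log t := by
  obtain ⟨t1, ht1, h1⟩ := gd_one ε hε
  obtain ⟨t3, ht3, h3⟩ := Pool.Agent.H986R2.K4.a1 (min (ε / 2) 1) (lt_min (by positivity) (by norm_num))
  refine ⟨max t1 (t3 + 1), ht1.trans (le_max_left _ _), fun t ht w hw1 hw2 => ?_⟩
  have ha1 : t1 ≤ t := (le_max_left _ _).trans ht
  have ha3 : t3 + 1 ≤ t := (le_max_right _ _).trans ht
  have hw2' := abs_le.1 hw2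
  rcases le_total w.re 3 with h5 | h5
  · exact h1 t ha1 w hw1 h5 hw2
  · obtain ⟨b1, b2, -, -⟩ := h3 w (by linarith [min_le_right (ε / 2) 1]) (by linarith)
    refine ⟨b1, b2.trans ?_⟩
    have hw0 : 0 < w.im := by linarith
    have hl : Real.log w.im ≤ 2 * Real.log t := by
      have h1 : Real.log w.im ≤ Real.log (t ^ 2) := Real.log_le_log hw0 (by nlinarith)
      rwa [Real.log_pow] at h1
    have hl0 : 0 ≤ Real.log w.im := Real.log_nonneg (by linarith)
    calc min (ε / 2) 1 * Real.log w.im ≤ ε / 2 * (2 * Real.log t) := by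
          gcongr
          exact min_le_left _ _
      _ = _ := by ring

theorem ratio5 (k : ℕ) (ε : ℝ) (hε : 0 < ε) : ∃ T0 : ℝ, 3 ≤ T0 ∧ ∀ s : ℂ, T0 ≤ s.im →
    -4 ≤ s.re → s.re ≤ 0 →
    riemannZeta s ≠ 0 ∧ ‖iteratedDeriv k riemannZeta s - (-((Real.log s.im : ℝ) : ℂ)) ^ k * riemannZeta s‖ ≤
      ε * Real.log s.im ^ k * ‖riemannZeta s‖ := by
  obtain ⟨K, T1, hK, hT1, hfe⟩ := fe5
  set f : ℝ := (k.factorial : ℝ) with hf
  have hf1 : 1 ≤ f := by rw [hf]; exact_mod_cast Nat.one_le_iff_ne_zero.2 (Nat.factorial_ne_zero k)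
  obtain ⟨ε', he⟩ : ∃ ε' : ℝ, ε' = min (1 / 2) (ε / (12 * f)) := ⟨_, rfl⟩
  have he0 : 0 < ε' := by rw [he]; positivity
  have he1 : ε' ≤ 1 / 2 := by rw [he]; exact min_le_left _ _
  have he2 : f * (12 * ε') ≤ ε := by
    have h1 : ε' ≤ ε / (12 * f) := by rw [he]; exact min_le_right _ _
    rw [le_div_iff₀ (by positivity)] at h1
    linarith
  obtain ⟨T2, hT2⟩ : ∃ T2 : ℝ, ∀ t : ℝ, T2 ≤ t → (K + 1) / ε' + 4 ≤ Real.log t :=
    Filter.eventually_atTop.1 (Real.tendsto_log_atTop.eventually_ge_atTop _)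
  obtain ⟨T3, hT3, hG⟩ := ld1 ε' he0
  refine ⟨max (max 3 T3) (max (T1 + 1) T2), (le_max_left _ _).trans (le_max_left _ _), ?_⟩
  intro s hs hsr1 hsr2
  obtain ⟨t, hst⟩ : ∃ t : ℝ, s.im = t := ⟨_, rfl⟩
  rw [hst] at hs ⊢
  have ht3 : 3 ≤ t := ((le_max_left _ _).trans (le_max_left _ _)).trans hs
  have htT3 : T3 ≤ t := ((le_max_right _ _).trans (le_max_left _ _)).trans hs
  have htT1 : T1 + 1 ≤ t := (le_max_left _ _).trans ((le_max_right _ _).trans hs)
  have htT2 : T2 ≤ t := (le_max_right _ _).trans ((le_max_right _ _).trans hs)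
  obtain ⟨L, hL⟩ : ∃ L : ℝ, L = Real.log t := ⟨_, rfl⟩
  have hLb := hT2 t htT2
  have hG' := hG t htT3
  rw [← hL] at hLb hG'
  have hKe : 0 < (K + 1) / ε' := by positivity
  have hL4 : 4 ≤ L := by linarith
  have hL0 : 0 < L := by linarith
  have hinv : 1 / L ≤ 1 / 4 := one_div_le_one_div_of_le (by norm_num) hL4
  have hinv0 : 0 < 1 / L := by positivity
  have hKL : K + 1 ≤ ε' * L := by
    have h1 : (K + 1) / ε' ≤ L := by linarith
    rw [div_le_iff₀ he0] at h1
    linarith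
  rw [← hL]
  have hball : ∀ w ∈ closedBall s (1 / L), DifferentiableAt ℂ riemannZeta w ∧ riemannZeta w ≠ 0 ∧
      ‖logDeriv riemannZeta w + L‖ ≤ (2 * ε') * L := by
    intro w hw
    rw [mem_closedBall, dist_eq_norm] at hw
    have h1 := abs_le.1 ((abs_re_le_norm (w - s)).trans hw)
    have h2 := abs_le.1 ((abs_im_le_norm (w - s)).trans hw)
    rw [sub_re] at h1
    rw [sub_im, hst] at h2
    have hwr : |w.re| ≤ 5 := by rw [abs_le]; constructor <;> linarith
    obtain ⟨f1, f2, f3⟩ := hfe w (by linarith) hwr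
    obtain ⟨v, hv⟩ : ∃ v : ℂ, v = 1 - (starRingEnd ℂ) w := ⟨_, rfl⟩
    have hvre : v.re = 1 - w.re := by rw [hv]; simp
    have hvim : v.im = w.im := by rw [hv]; simp
    rw [← hv] at f1 f2 f3
    obtain ⟨g1, g2⟩ := hG' v (by rw [hvre]; linarith) (by
      rw [hvim, abs_le]; constructor <;> linarith)
    have hwi : 0 < w.im := by linarith
    have hw0 : riemannZeta w ≠ 0 := by
      intro h
      rw [h, norm_zero, mul_zero] at f2
      have h5 : 0 < w.im ^ (1 / 2 - w.re) * ‖riemannZeta v‖ :=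
        mul_pos (Real.rpow_pos_of_pos hwi _) (norm_pos_iff.2 g1)
      linarith
    have hw1 : w ≠ 1 := by
      intro h
      rw [h, one_im] at hwi
      exact lt_irrefl _ hwi
    refine ⟨differentiableAt_riemannZeta hw1, hw0, ?_⟩
    have h6 := f3 g1
    have hlog : |Real.log w.im - L| ≤ 1 := by
      rw [hL, ← Real.log_div hwi.ne' (by linarith)]
      have ht0 : 0 < t := by linarith
      have h8 : w.im / t ≤ 1 + 1 / 4 := by
        rw [div_le_iff₀ ht0]; nlinarith
      have h9 : 1 - 1 / 4 ≤ w.im / t := by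
        rw [le_div_iff₀ ht0]; nlinarith
      have h10 : 0 < w.im / t := by positivity
      rw [abs_le]
      constructor
      · have h11 := Real.one_sub_inv_le_log_of_pos h10
        have h12 : (w.im / t)⁻¹ ≤ 2 := by
          rw [inv_le_comm₀ h10 (by norm_num)]
          linarith
        linarith
      · have h11 := Real.log_le_sub_one_of_pos h10
        linarith
    have h7 : logDeriv riemannZeta w + L = (logDeriv riemannZeta w + Real.log w.im +
        (starRingEnd ℂ) (logDeriv riemannZeta v)) - (starRingEnd ℂ) (logDeriv riemannZeta v) -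
        ((Real.log w.im - L : ℝ) : ℂ) := by
      push_cast; ring
    rw [h7]
    refine (norm_sub_le _ _).trans ?_
    rw [norm_real, Real.norm_eq_abs]
    have h8 := norm_sub_le (logDeriv riemannZeta w + Real.log w.im +
        (starRingEnd ℂ) (logDeriv riemannZeta v)) ((starRingEnd ℂ) (logDeriv riemannZeta v))
    rw [Complex.norm_conj] at h8
    linarith
  have hs0 := (hball s (mem_closedBall_self hinv0.le)).2.1
  refine ⟨hs0, ?_⟩
  have hs1 : s ≠ 1 := by
    intro h
    rw [h, one_im] at hst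
    linarith
  have hcd : ContDiffAt ℂ k riemannZeta s := by
    have : AnalyticAt ℂ riemannZeta s := by
      have := an_it 0 hs1
      rwa [iteratedDeriv_zero] at this
    exact this.contDiffAt
  have hq := quot (F := riemannZeta) hL0 (by positivity) (by linarith) hball k hcd
  refine hq.trans ?_
  rw [← hf]
  have h1 : f * (6 * (2 * ε')) ≤ ε := by linarith
  calc f * (6 * (2 * ε')) * L ^ k * ‖riemannZeta s‖ ≤ ε * L ^ k * ‖riemannZeta s‖ := by
        gcongr
    _ = _ := rfl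

/-- size of zeta to the left -/
theorem zl (η : ℝ) (hη : 0 < η) : ∃ T0 : ℝ, 3 ≤ T0 ∧ ∀ s : ℂ, T0 ≤ s.im → -4 ≤ s.re → s.re ≤ 0 →
    Real.exp (Real.log s.im * (1 / 2 - s.re - η)) ≤ ‖riemannZeta s‖ ∧
    ‖riemannZeta s‖ ≤ Real.exp (Real.log s.im * (1 / 2 - s.re + η)) := by
  obtain ⟨K, T1, hK, hT1, hfe⟩ := fe5
  obtain ⟨T2, hT2, hn⟩ := near1 (η / 2) (by positivity)
  obtain ⟨T3, hT3, hx⟩ := ev_exp (Real.exp K) (half_pos hη) 0
  refine ⟨max T1 (max T2 T3), hT2.trans ((le_max_left _ _).trans (le_max_right _ _)),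
    fun s hs h1 h2 => ?_⟩
  have ha : T1 ≤ s.im := (le_max_left _ _).trans hs
  have hb : T2 ≤ s.im := (le_max_left _ _).trans ((le_max_right _ _).trans hs)
  have hc : T3 ≤ s.im := (le_max_right _ _).trans ((le_max_right _ _).trans hs)
  obtain ⟨f1, f2, -⟩ := hfe s ha (by rw [abs_le]; constructor <;> linarith)
  have hvre : (1 - (starRingEnd ℂ) s).re = 1 - s.re := by simp
  have hvim : (1 - (starRingEnd ℂ) s).im = s.im := by simp
  obtain ⟨-, g2, g3⟩ := hn (1 - (starRingEnd ℂ) s) (by rw [hvre]; linarith) (by rw [hvim]; exact hb)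
  rw [hvim] at g2 g3
  have hx' := hx s.im hc
  have hs0 : 0 < s.im := by linarith
  rw [Real.rpow_def_of_pos hs0] at f1 f2
  rw [pow_zero, mul_one] at hx'
  obtain ⟨l, hl⟩ : ∃ l : ℝ, l = Real.log s.im := ⟨_, rfl⟩
  rw [← hl] at f1 f2 g2 g3 hx' ⊢
  have hK0 := Real.exp_pos K
  constructor
  · have e1 : Real.exp (l * (1 / 2 - s.re)) * Real.exp (-(η / 2 * l)) ≤ Real.exp K * ‖riemannZeta s‖ := by
      refine le_trans ?_ f2
      gcongr
    have e2 : Real.exp (l * (1 / 2 - s.re)) * Real.exp (-(η / 2 * l)) =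
        Real.exp (η / 2 * l) * Real.exp (l * (1 / 2 - s.re - η)) := by
      rw [← Real.exp_add, ← Real.exp_add]; congr 1; ring
    rw [e2] at e1
    have e3 : Real.exp K * Real.exp (l * (1 / 2 - s.re - η)) ≤ Real.exp K * ‖riemannZeta s‖ := by
      refine le_trans ?_ e1
      gcongr
    exact le_of_mul_le_mul_left e3 hK0
  · calc ‖riemannZeta s‖ ≤ Real.exp K * Real.exp (l * (1 / 2 - s.re)) *
          ‖riemannZeta (1 - (starRingEnd ℂ) s)‖ := f1
      _ ≤ Real.exp (η / 2 * l) * Real.exp (l * (1 / 2 - s.re)) * Real.exp (η / 2 * l) := by gcongr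
      _ = _ := by rw [← Real.exp_add, ← Real.exp_add]; congr 1; ring

/-- polynomial growth -/
theorem grow0 : ∃ T0 : ℝ, 3 ≤ T0 ∧ ∀ s : ℂ, T0 ≤ s.im → -5 ≤ s.re → s.re ≤ 5 →
    ‖riemannZeta s‖ ≤ Real.exp (Real.log s.im * 8) := by
  obtain ⟨K, T1, hK, hT1, hfe⟩ := fe5
  obtain ⟨T3, hT3, hx⟩ := ev_exp (Real.exp K) (show (0 : ℝ) < 1 / 2 by norm_num) 0
  have hright : ∀ s : ℂ, 100 ≤ s.im → 1 / 2 ≤ s.re → s.re ≤ 6 → ‖riemannZeta s‖ ≤ s.im ^ 2 := by
    intro s h1 h2 h3
    have hs1 : s ≠ 1 := by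
      intro h
      rw [h, one_im] at h1
      norm_num at h1
    have hb := H353.FF_bound (1 / 2) (by norm_num) s h2
    rw [Q240.QS.FF_ne' hs1, norm_mul] at hb
    have hn : ‖s‖ ≤ s.im + 6 := by
      refine (norm_le_abs_re_add_abs_im _).trans ?_
      rw [abs_of_pos (by linarith), abs_of_pos (by linarith)]
      linarith
    have hn1 : s.im ≤ ‖s - 1‖ := by
      have h6 := abs_im_le_norm (s - 1)
      rw [sub_im, one_im, sub_zero, abs_of_pos (by linarith)] at h6
      exact h6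
    have h8 : s.im * ‖riemannZeta s‖ ≤ 3 * (s.im + 7) ^ 2 := by
      calc s.im * ‖riemannZeta s‖ ≤ ‖s - 1‖ * ‖riemannZeta s‖ :=
            mul_le_mul_of_nonneg_right hn1 (norm_nonneg _)
        _ ≤ _ := hb
        _ ≤ (1 + 1 / (1 / 2)) * (1 + (s.im + 6)) ^ 2 := by gcongr
        _ = 3 * (s.im + 7) ^ 2 := by norm_num; ring
    have h9 : 3 * (s.im + 7) ^ 2 ≤ s.im * s.im ^ 2 := by nlinarith [sq_nonneg (s.im - 100)]
    exact le_of_mul_le_mul_left (h8.trans h9) (by linarith)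
  refine ⟨max T1 (max T3 100), hT3.trans ((le_max_left _ _).trans (le_max_right _ _)),
    fun s hs h1 h2 => ?_⟩
  have ha : T1 ≤ s.im := (le_max_left _ _).trans hs
  have hb : T3 ≤ s.im := (le_max_left _ _).trans ((le_max_right _ _).trans hs)
  have hc : 100 ≤ s.im := (le_max_right _ _).trans ((le_max_right _ _).trans hs)
  have hs0 : 0 < s.im := by linarith
  have hl1 : 1 ≤ Real.log s.im := by
    rw [Real.le_log_iff_exp_le hs0]
    linarith [Real.exp_one_lt_d9]
  have hsq : s.im ^ 2 = Real.exp (Real.log s.im * 2) := by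
    rw [Real.exp_mul, Real.exp_log hs0]
    norm_num
  rcases le_total (1 / 2) s.re with h3 | h3
  · refine (hright s hc h3 (by linarith)).trans ?_
    rw [hsq]
    apply Real.exp_le_exp.2
    linarith
  · obtain ⟨f1, -, -⟩ := hfe s ha (by rw [abs_le]; constructor <;> linarith)
    have hvre : (1 - (starRingEnd ℂ) s).re = 1 - s.re := by simp
    have hvim : (1 - (starRingEnd ℂ) s).im = s.im := by simp
    have g2 := hright (1 - (starRingEnd ℂ) s) (by rw [hvim]; exact hc) (by rw [hvre]; linarith)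
      (by rw [hvre]; linarith)
    have hx' := hx s.im hb
    rw [pow_zero, mul_one] at hx'
    rw [hvim, hsq] at g2
    rw [Real.rpow_def_of_pos hs0] at f1
    calc ‖riemannZeta s‖ ≤ Real.exp K * Real.exp (Real.log s.im * (1 / 2 - s.re)) *
          ‖riemannZeta (1 - (starRingEnd ℂ) s)‖ := f1
      _ ≤ Real.exp (1 / 2 * Real.log s.im) * Real.exp (Real.log s.im * (1 / 2 - s.re)) *
          Real.exp (Real.log s.im * 2) := by gcongr
      _ = Real.exp (Real.log s.im * (3 - s.re)) := by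
          rw [← Real.exp_add, ← Real.exp_add]; congr 1; ring
      _ ≤ _ := by
          apply Real.exp_le_exp.2
          nlinarith

theorem grow5 (k : ℕ) : ∃ T0 : ℝ, 3 ≤ T0 ∧ ∀ s : ℂ, T0 ≤ s.im → -4 ≤ s.re → s.re ≤ 4 →
    ‖iteratedDeriv k riemannZeta s‖ ≤ Real.exp (Real.log s.im * 17) := by
  obtain ⟨T1, hT1, h⟩ := grow0
  obtain ⟨T3, hT3, hx⟩ := ev_exp (k.factorial : ℝ) one_pos 0
  refine ⟨max (T1 + 1) T3, by linarith [le_max_left (T1 + 1) T3], fun s hs h1 h2 => ?_⟩
  have ha : T1 + 1 ≤ s.im := (le_max_left _ _).trans hs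
  have hb : T3 ≤ s.im := (le_max_right _ _).trans hs
  have hs0 : 0 < s.im := by linarith
  have hl1 : 1 ≤ Real.log s.im := by
    rw [Real.le_log_iff_exp_le hs0]
    linarith [Real.exp_one_lt_d9]
  have hball : ∀ w ∈ closedBall s 1, DifferentiableAt ℂ riemannZeta w ∧
      ‖riemannZeta w‖ ≤ Real.exp (Real.log s.im * 16) := by
    intro w hw
    rw [mem_closedBall, dist_eq_norm] at hw
    have h3 := abs_le.1 ((abs_re_le_norm (w - s)).trans hw)
    have h4 := abs_le.1 ((abs_im_le_norm (w - s)).trans hw)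
    rw [sub_re] at h3
    rw [sub_im] at h4
    have hw0 : 0 < w.im := by linarith
    have hw1 : w ≠ 1 := by
      intro h
      rw [h, one_im] at hw0
      exact lt_irrefl _ hw0
    refine ⟨differentiableAt_riemannZeta hw1, (h w (by linarith) (by linarith) (by linarith)).trans ?_⟩
    apply Real.exp_le_exp.2
    have hl : Real.log w.im ≤ 2 * Real.log s.im := by
      have h1 : Real.log w.im ≤ Real.log (s.im ^ 2) := Real.log_le_log hw0 (by nlinarith)
      rwa [Real.log_pow] at h1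
    linarith
  have hD : DiffContOnCl ℂ riemannZeta (ball s 1) := by
    apply DifferentiableOn.diffContOnCl
    intro w hw
    have : w ∈ closedBall s 1 := closure_ball_subset_closedBall hw
    exact (hball w this).1.differentiableWithinAt
  have hCau := norm_iteratedDeriv_le_of_forall_mem_sphere_norm_le k one_pos hD
    (fun z hz => (hball z (sphere_subset_closedBall hz)).2)
  rw [one_pow, div_one] at hCau
  refine hCau.trans ?_
  have hx' := hx s.im hb
  rw [pow_zero, mul_one] at hx'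
  calc (k.factorial : ℝ) * Real.exp (Real.log s.im * 16) ≤
        Real.exp (1 * Real.log s.im) * Real.exp (Real.log s.im * 16) := by gcongr
    _ = _ := by rw [← Real.exp_add]; congr 1; ring

theorem right2 (k : ℕ) : ∃ C : ℝ, 0 < C ∧ ∀ s : ℂ, s.re = 2 → 1 ≤ s.im →
    ‖iteratedDeriv k riemannZeta s‖ ≤ C := by
  have h1σ : (1 : ℝ) < ((3 / 2 : ℝ) : ℂ).re := by simp; norm_num
  obtain ⟨C1, hC1, hb1⟩ := Pool.Agent.H986R2.K4.A1Aux.bound 1 (3 / 2) (LSeriesSummable_one_iff.mpr h1σ)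
  refine ⟨k.factorial * C1 / (1 / 2) ^ k, by positivity, fun s h1 h2 => ?_⟩
  have hball : ∀ w ∈ closedBall s (1 / 2), DifferentiableAt ℂ riemannZeta w ∧ ‖riemannZeta w‖ ≤ C1 := by
    intro w hw
    rw [mem_closedBall, dist_eq_norm] at hw
    have h3 := abs_le.1 ((abs_re_le_norm (w - s)).trans hw)
    rw [sub_re] at h3
    have hw1 : w ≠ 1 := by
      intro h
      rw [h, one_re] at h3
      linarith
    refine ⟨differentiableAt_riemannZeta hw1, ?_⟩
    rw [← LSeries_one_eq_riemannZeta (by linarith)]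
    exact hb1 w (by linarith)
  have hD : DiffContOnCl ℂ riemannZeta (ball s (1 / 2)) := by
    apply DifferentiableOn.diffContOnCl
    intro w hw
    have : w ∈ closedBall s (1 / 2) := closure_ball_subset_closedBall hw
    exact (hball w this).1.differentiableWithinAt
  exact norm_iteratedDeriv_le_of_forall_mem_sphere_norm_le k (by norm_num) hD
    (fun z hz => (hball z (sphere_subset_closedBall hz)).2)

end Q240.SH
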